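import Pool.Agent.Helper47.HR.Defs

set_option autoImplicit false

/-! Module C: independence of the pairing sum of the basis, and the lattice lemma. -/

namespace Pool.Agent.Helper47.HR

open Polynomial Matrix

section C1

variable {K V : Type*} [Field K] [CommRing V] [Algebra K V]

theorem hrc_nondeg {s : V →ₗ[K] K} {n : ℕ} {e e' : Fin n → V} (h : DualPair s e e') (z : V)
    (hz : ∀ y, s (z * y) = 0) : z = 0 := by
  rw [h.span z]
  simp [hz]

theorem hrc_dual {s : V →ₗ[K] K} {n : ℕ} {e e' : Fin n → V} (h : DualPair s e e') (x : V) :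
    x = ∑ i, s (x * e i) • e' i := by
  rw [← sub_eq_zero]
  apply hrc_nondeg h
  intro z
  rw [sub_mul, map_sub, sub_eq_zero]
  conv_lhs => rw [h.span z]
  rw [Finset.mul_sum, map_sum, Finset.sum_mul, map_sum]
  refine Finset.sum_congr rfl fun i _ => ?_
  rw [mul_smul_comm, map_smul, smul_mul_assoc, map_smul, smul_eq_mul, smul_eq_mul, mul_comm z]
  ring

theorem hrc_symm {s : V →ₗ[K] K} {n : ℕ} {e e' : Fin n → V} (h : DualPair s e e') :
    DualPair s e' e where
  orth i j := by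
    rw [mul_comm, h.orth]
    simp only [eq_comm]
  span := hrc_dual h

theorem hrc_two [CharP K 2] : (2 : V) = 0 := by
  have h1 : (2 : K) = 0 := CharTwo.two_eq_zero
  have h2 := congrArg (algebraMap K V) h1
  rwa [map_ofNat, map_zero] at h2

theorem hrc_sq [CharP K 2] {m : ℕ} (c : Fin m → K) (f : Fin m → V) :
    (∑ j, c j • f j) ^ 2 = ∑ j, c j ^ 2 • f j ^ 2 := by
  have hadd : ∀ x y : V, (x + y) ^ 2 = x ^ 2 + y ^ 2 := by
    intro x y
    have h2 : (2 : V) = 0 := hrc_two (K := K)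
    linear_combination (x * y) * h2
  let q : V →+ V :=
    { toFun := fun x => x ^ 2
      map_zero' := by simp
      map_add' := hadd }
  have h1 : (∑ j, c j • f j) ^ 2 = q (∑ j, c j • f j) := rfl
  rw [h1, map_sum]
  refine Finset.sum_congr rfl fun j _ => ?_
  exact smul_pow _ _ _

theorem hrc_lam [CharP K 2] (s : V →ₗ[K] K) (η : V) {m : ℕ} (c : Fin m → K) (f : Fin m → V) :
    s (η * (∑ j, c j • f j) ^ 2) = ∑ j, c j ^ 2 * s (η * f j ^ 2) := by
  rw [hrc_sq, Finset.mul_sum, map_sum]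
  refine Finset.sum_congr rfl fun j _ => ?_
  rw [mul_smul_comm, map_smul, smul_eq_mul]

theorem hrc_psi [CharP K 2] (s : V →ₗ[K] K) (D : K →+ K)
    (hD : ∀ r x, D (r ^ 2 * x) = r ^ 2 * D x) (η : V) {m : ℕ} (c : Fin m → K)
    (f : Fin m → V) :
    D (s (η * (∑ j, c j • f j) ^ 2)) = ∑ j, c j ^ 2 * D (s (η * f j ^ 2)) := by
  rw [hrc_lam, map_sum]
  refine Finset.sum_congr rfl fun j _ => ?_
  rw [hD]

end C1

/-- C1 -/
theorem PS_indep {K V : Type*} [Field K] [CharP K 2] [CommRing V] [Algebra K V]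
    (s : V →ₗ[K] K) (D : K →+ K) (hD : ∀ r x, D (r ^ 2 * x) = r ^ 2 * D x) (η η' : V)
    {n m : ℕ} {e e' : Fin n → V} {f f' : Fin m → V} (h : DualPair s e e')
    (h' : DualPair s f f') : PS s D η η' e e' = PS s D η η' f f' := by
  unfold PS
  have h1 : ∀ i, s (η * e i ^ 2) = ∑ j, s (e i * f' j) ^ 2 * s (η * f j ^ 2) := by
    intro i
    conv_lhs => rw [h'.span (e i)]
    exact hrc_lam s η _ _
  have h2 : ∀ j, D (s (η' * f' j ^ 2)) = ∑ i, s (e i * f' j) ^ 2 * D (s (η' * e' i ^ 2)) := by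
    intro j
    conv_lhs => rw [hrc_dual h (f' j)]
    rw [hrc_psi s D hD]
    simp only [mul_comm (f' j)]
  simp only [h1, h2]
  simp only [Finset.sum_mul, Finset.mul_sum]
  rw [Finset.sum_comm]
  refine Finset.sum_congr rfl fun i _ => Finset.sum_congr rfl fun j _ => ?_
  ring

/-- an adapted basis of a pair of lattices -/
theorem hrc_adapt {S M : Type*} [CommRing S] [IsDomain S] [IsPrincipalIdealRing S]
    [AddCommGroup M] [Module S M] [Module.Finite S M] [Module.IsTorsionFree S M]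
    (N : Submodule S M) (ϖ : S) (hϖ : Prime ϖ) (h : ∀ x, ϖ • x ∈ N) :
    ∃ (k : ℕ) (b : Module.Basis (Fin k) S M), ∀ i, b i ∈ N ∨ ∀ x ∈ N, ϖ ∣ b.repr x i := by
  obtain ⟨k, b0⟩ := Module.basisOfFiniteTypeTorsionFree' (R := S) (M := M)
  obtain ⟨n, snf⟩ := Submodule.smithNormalForm b0 N
  refine ⟨k, snf.bM, fun i => ?_⟩
  by_cases hi : i ∈ Set.range snf.f
  · obtain ⟨j, rfl⟩ := hi
    have hrep : ∀ x (hx : x ∈ N), snf.bM.repr x (snf.f j) = snf.a j * snf.bN.repr ⟨x, hx⟩ j := by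
      intro x hx
      have := snf.repr_apply_embedding_eq_repr_smul (m := ⟨x, hx⟩) (i := j)
      rw [map_smul, Finsupp.smul_apply, smul_eq_mul] at this
      exact this
    by_cases hd : ϖ ∣ snf.a j
    · right
      intro x hx
      rw [hrep x hx]
      exact hd.mul_right _
    · left
      have h1 := hrep _ (h (snf.bM (snf.f j)))
      rw [map_smul, Module.Basis.repr_self, Finsupp.smul_apply, Finsupp.single_eq_same,
        smul_eq_mul, mul_one] at h1
      have hdv : ϖ ∣ snf.a j * snf.bN.repr ⟨_, h (snf.bM (snf.f j))⟩ j :=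
        ⟨1, by rw [mul_one]; exact h1.symm⟩
      rcases hϖ.dvd_or_dvd hdv with h2 | h2
      · exact absurd h2 hd
      · obtain ⟨c, hc⟩ := h2
        rw [hc] at h1
        have h3 : snf.a j * c = 1 := by
          have : ϖ * (snf.a j * c - 1) = 0 := by linear_combination -h1
          rcases mul_eq_zero.1 this with h4 | h4
          · exact absurd h4 hϖ.ne_zero
          · exact sub_eq_zero.1 h4
        have h5 : snf.bM (snf.f j) = c • (snf.bN j : M) := by
          rw [snf.snf, smul_smul, mul_comm c, h3, one_smul]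
        rw [h5]
        exact N.smul_mem _ (snf.bN j).2
  · right
    intro x hx
    rw [snf.repr_eq_zero_of_notMem_range ⟨x, hx⟩ hi]
    exact dvd_zero _

section C2

variable {S K V : Type*} [CommRing S] [IsDomain S] [IsPrincipalIdealRing S]
    [Field K] [CharP K 2] [Algebra S K] [IsFractionRing S K]
    [CommRing V] [Algebra K V] [Algebra S V] [IsScalarTower S K V]

/-- claim 1 and the descent -/
theorem hrc_descent (P : ℕ → Prop) (k : ℕ) (hk : P k)
    (h : ∀ j, 1 ≤ j → P j → P (j / 2)) : P 0 := by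
  induction k using Nat.strong_induction_on with
  | _ k ih =>
    rcases Nat.eq_zero_or_pos k with h0 | h0
    · rwa [h0] at hk
    · exact ih (k / 2) (Nat.div_lt_self h0 (by norm_num)) (h k h0 hk)

omit [IsDomain S] [IsPrincipalIdealRing S] in
theorem hrc_wr (V₀ : Subalgebra S V) (w η' x : V) (hw : w ∈ V₀) (R r : ℕ)
    (hr' : w ^ (2 * r) * η' ∈ V₀)
    (hx : ∀ y, w ^ R * y ∈ V₀ → η' * y ^ 2 ∈ V₀ → x * y ∈ V₀) : x * w ^ r ∈ V₀ := by
  refine hx _ (V₀.mul_mem (V₀.pow_mem hw _) (V₀.pow_mem hw _)) ?_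
  have : η' * (w ^ r) ^ 2 = w ^ (2 * r) * η' := by ring
  rw [this]; exact hr'

omit [IsDomain S] [IsPrincipalIdealRing S] in
/-- claim 1 -/
theorem hrc_claim1 (V₀ : Subalgebra S V) (w η η' x : V) (hw : w ∈ V₀) (hη : η * η' = w)
    (r m : ℕ) (hr : w ^ (2 * r) * η ∈ V₀) (hr' : w ^ (2 * r) * η' ∈ V₀)
    (hx : ∀ y, w ^ (3 * r + m) * y ∈ V₀ → η' * y ^ 2 ∈ V₀ → x * y ∈ V₀) :
    η * x ^ 2 ∈ V₀ := by
  have hxw := hrc_wr V₀ w η' x hw _ r hr' hx
  have h0 := hrc_descent (fun j => w ^ j * (η * x ^ 2) ∈ V₀) (4 * r) (by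
      have : w ^ (4 * r) * (η * x ^ 2) = (w ^ (2 * r) * η) * (x * w ^ r) ^ 2 := by ring
      simp only [this]
      exact V₀.mul_mem hr (V₀.pow_mem hxw _)) (by
      intro j hj hP
      have e1 : w ^ (j / 2) * (η * x ^ 2) = x * (w ^ (j / 2) * η * x) := by ring
      rw [e1]
      apply hx
      · have : w ^ (3 * r + m) * (w ^ (j / 2) * η * x) =
          w ^ (m + j / 2) * ((w ^ (2 * r) * η) * (x * w ^ r)) := by ring
        rw [this]
        exact V₀.mul_mem (V₀.pow_mem hw _) (V₀.mul_mem hr hxw)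
      · have h2 : j + (2 * (j / 2) + 1 - j) = 2 * (j / 2) + 1 := by omega
        have : η' * (w ^ (j / 2) * η * x) ^ 2 =
            w ^ (2 * (j / 2) + 1 - j) * (w ^ j * (η * x ^ 2)) := by
          calc η' * (w ^ (j / 2) * η * x) ^ 2
              = w ^ (2 * (j / 2)) * (η * η') * (η * x ^ 2) := by ring
            _ = w ^ (2 * (j / 2) + 1) * (η * x ^ 2) := by rw [hη]; ring
            _ = w ^ (j + (2 * (j / 2) + 1 - j)) * (η * x ^ 2) := by rw [h2]
            _ = w ^ (2 * (j / 2) + 1 - j) * (w ^ j * (η * x ^ 2)) := by rw [pow_add]; ring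
        rw [this]
        exact V₀.mul_mem (V₀.pow_mem hw _) hP)
  simpa using h0

omit [IsDomain S] [IsPrincipalIdealRing S] [CharP K 2] [IsFractionRing S K] in
/-- claim 2 -/
theorem hrc_claim2 (ϖ : S) (hp : algebraMap S K ϖ ≠ 0) (V₀ : Subalgebra S V) (w η η' x : V)
    (hw : w ∈ V₀) (hη : η * η' = w)
    (r m : ℕ) (hr : w ^ (2 * r) * η ∈ V₀) (hr' : w ^ (2 * r) * η' ∈ V₀)
    (v₀ : V) (hv₀ : v₀ ∈ V₀) (hm : w ^ m = ϖ • v₀)
    (hx : ∀ y, w ^ (3 * r + m) * y ∈ V₀ → ϖ • (η' * y ^ 2) ∈ V₀ → x * y ∈ V₀) :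
    ∃ z ∈ V₀, η * x ^ 2 = algebraMap S K ϖ • z := by
  have hsm : ∀ v : V, ϖ • v = algebraMap S K ϖ • v := fun v => (IsScalarTower.algebraMap_smul K ϖ v).symm
  have hx' : ∀ y, w ^ (3 * r + m) * y ∈ V₀ → η' * y ^ 2 ∈ V₀ → x * y ∈ V₀ :=
    fun y h1 h2 => hx y h1 (V₀.smul_mem h2 ϖ)
  have hxw := hrc_wr V₀ w η' x hw _ r hr' hx'
  set p := algebraMap S K ϖ with hpdef
  have h0 := hrc_descent (fun j => ∃ z ∈ V₀, w ^ j * (η * x ^ 2) = p • z) (2 * m) (by
      have h1 : η * (v₀ * x) ^ 2 ∈ V₀ := by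
        apply hrc_claim1 V₀ w η η' (v₀ * x) hw hη r m hr hr'
        intro y h1 h2
        rw [mul_assoc]
        exact V₀.mul_mem hv₀ (hx' y h1 h2)
      refine ⟨ϖ • (η * (v₀ * x) ^ 2), V₀.smul_mem h1 ϖ, ?_⟩
      have h2 : w ^ (2 * m) * (η * x ^ 2) = (w ^ m) * (w ^ m) * (η * x ^ 2) := by ring
      rw [h2, hm, hsm, hsm]
      simp only [smul_mul_assoc, mul_smul_comm, smul_smul]
      congr 1
      ring) (by
      intro j hj hP
      obtain ⟨z, hz, hzw⟩ := hP
      refine ⟨x * (p⁻¹ • (w ^ (j / 2) * η * x)), ?_, ?_⟩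
      · apply hx
        · have : w ^ (3 * r + m) * (p⁻¹ • (w ^ (j / 2) * η * x)) =
              v₀ * w ^ (j / 2) * ((w ^ (2 * r) * η) * (x * w ^ r)) := by
            calc w ^ (3 * r + m) * (p⁻¹ • (w ^ (j / 2) * η * x))
                = p⁻¹ • (w ^ m * (w ^ (j / 2) * ((w ^ (2 * r) * η) * (x * w ^ r)))) := by
                  rw [mul_smul_comm]; congr 1; ring
              _ = p⁻¹ • p • (v₀ * (w ^ (j / 2) * ((w ^ (2 * r) * η) * (x * w ^ r)))) := by
                  rw [hm, hsm, smul_mul_assoc]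
              _ = _ := by rw [inv_smul_smul₀ hp]; ring
          rw [this]
          exact V₀.mul_mem (V₀.mul_mem hv₀ (V₀.pow_mem hw _)) (V₀.mul_mem hr hxw)
        · have h2 : j + (2 * (j / 2) + 1 - j) = 2 * (j / 2) + 1 := by omega
          have : ϖ • (η' * (p⁻¹ • (w ^ (j / 2) * η * x)) ^ 2) =
              w ^ (2 * (j / 2) + 1 - j) * z := by
            calc ϖ • (η' * (p⁻¹ • (w ^ (j / 2) * η * x)) ^ 2)
                = p⁻¹ • (w ^ (2 * (j / 2)) * (η * η') * (η * x ^ 2)) := by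
                  rw [hsm, _root_.smul_pow, mul_smul_comm, smul_smul]
                  congr 1
                  · field_simp
                  · ring
              _ = p⁻¹ • (w ^ (2 * (j / 2) + 1) * (η * x ^ 2)) := by rw [hη]; congr 1; ring
              _ = p⁻¹ • (w ^ (j + (2 * (j / 2) + 1 - j)) * (η * x ^ 2)) := by rw [h2]
              _ = p⁻¹ • (w ^ (2 * (j / 2) + 1 - j) * (w ^ j * (η * x ^ 2))) := by
                  rw [pow_add]; congr 1; ring
              _ = _ := by rw [hzw, mul_smul_comm, inv_smul_smul₀ hp]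
          rw [this]
          exact V₀.mul_mem (V₀.pow_mem hw _) hz
      · rw [mul_smul_comm, smul_inv_smul₀ hp]
        ring)
  simpa using h0

end C2

/-- C2: the lattice lemma -/
theorem lattice {S K V : Type*} [CommRing S] [IsDomain S] [IsPrincipalIdealRing S]
    [Field K] [CharP K 2] [Algebra S K] [IsFractionRing S K]
    [CommRing V] [Algebra K V] [Algebra S V] [IsScalarTower S K V]
    (D : K →+ K) (hD : ∀ r x, D (r ^ 2 * x) = r ^ 2 * D x)
    (hDS : ∀ x : S, ∃ y : S, D (algebraMap S K x) = algebraMap S K y)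
    (ϖ : S) (hϖ : Prime ϖ)
    (hDϖ : ∀ x : K, D (algebraMap S K ϖ * x) = algebraMap S K ϖ * D x)
    (V₀ : Subalgebra S V) (s : V →ₗ[K] K) (hs : ∀ x ∈ V₀, ∃ y : S, s x = algebraMap S K y)
    {n : ℕ} (u u' : Fin n → V) (hu : ∀ i, u i ∈ V₀) (hu' : ∀ i, u' i ∈ V₀)
    (hp : DualPair s u u')
    (w winv η η' : V) (hw : w ∈ V₀) (hwi : w * winv = 1) (hη : η * η' = w)
    (r : ℕ) (hr : w ^ (2 * r) * η ∈ V₀) (hr' : w ^ (2 * r) * η' ∈ V₀)
    (m : ℕ) (v₀ : V) (hv₀ : v₀ ∈ V₀) (hm : w ^ m = ϖ • v₀) :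
    ∃ y : S, PS s D η η' u u' = algebraMap S K (ϖ * y) := by
  have hinj : Function.Injective (algebraMap S K) := IsFractionRing.injective S K
  have hp0 : algebraMap S K ϖ ≠ 0 := by
    intro h0
    exact hϖ.ne_zero (hinj (by rw [h0, map_zero]))
  have hsm : ∀ (c : S) (v : V), c • v = algebraMap S K c • v :=
    fun c v => (IsScalarTower.algebraMap_smul K c v).symm
  have hsum : ∀ {ι : Type} (t : Finset ι) (g : ι → K), (∀ i ∈ t, ∃ y : S,
      g i = algebraMap S K (ϖ * y)) → ∃ y : S, ∑ i ∈ t, g i = algebraMap S K (ϖ * y) := by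
    intro ι t g hg
    choose! y hy using hg
    refine ⟨∑ i ∈ t, y i, ?_⟩
    rw [Finset.mul_sum, map_sum]
    exact Finset.sum_congr rfl hy
  -- characterization of V₀
  have hV0 : ∀ x, (∀ v ∈ V₀, ∃ c : S, s (x * v) = algebraMap S K c) → x ∈ V₀ := by
    intro x hx
    rw [hp.span x]
    refine V₀.sum_mem fun i _ => ?_
    obtain ⟨c, hc⟩ := hx _ (hu' i)
    rw [hc, ← hsm]
    exact V₀.smul_mem (hu i) c
  have h2 : (2 : V) = 0 := hrc_two (K := K)
  -- the lattice N2
  let N2 : Submodule S V :=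
    { carrier := {y | w ^ (3 * r + m) * y ∈ V₀ ∧ ϖ • (η' * y ^ 2) ∈ V₀}
      add_mem' := by
        rintro a b ⟨ha1, ha2⟩ ⟨hb1, hb2⟩
        refine ⟨?_, ?_⟩
        · rw [mul_add]; exact V₀.add_mem ha1 hb1
        · have : ϖ • (η' * (a + b) ^ 2) = ϖ • (η' * a ^ 2) + ϖ • (η' * b ^ 2) := by
            rw [← smul_add]; congr 1
            linear_combination (η' * a * b) * h2
          rw [this]; exact V₀.add_mem ha2 hb2
      zero_mem' := by
        refine ⟨?_, ?_⟩
        · rw [mul_zero]; exact V₀.zero_mem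
        · have : ϖ • (η' * (0 : V) ^ 2) = 0 := by simp
          rw [this]; exact V₀.zero_mem
      smul_mem' := by
        rintro c a ⟨ha1, ha2⟩
        refine ⟨?_, ?_⟩
        · rw [mul_smul_comm]; exact V₀.smul_mem ha1 c
        · have : ϖ • (η' * (c • a) ^ 2) = c ^ 2 • (ϖ • (η' * a ^ 2)) := by
            rw [_root_.smul_pow, mul_smul_comm, smul_comm]
          rw [this]; exact V₀.smul_mem ha2 _ }
  have hN2 : ∀ y, y ∈ N2 ↔ w ^ (3 * r + m) * y ∈ V₀ ∧ ϖ • (η' * y ^ 2) ∈ V₀ := fun y => Iff.rfl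
  -- finiteness
  have hle : N2 ≤ Submodule.span S (Set.range fun i => winv ^ (3 * r + m) * u i) := by
    intro y hy
    have h1 := ((hN2 y).1 hy).1
    have h3 : y = winv ^ (3 * r + m) * (w ^ (3 * r + m) * y) := by
      rw [← mul_assoc, ← mul_pow, mul_comm winv, hwi, one_pow, one_mul]
    rw [h3, hp.span (w ^ (3 * r + m) * y), Finset.mul_sum]
    refine Submodule.sum_mem _ fun i _ => ?_
    obtain ⟨c, hc⟩ := hs _ (V₀.mul_mem h1 (hu' i))
    rw [hc, ← hsm, mul_smul_comm]
    exact Submodule.smul_mem _ _ (Submodule.subset_span ⟨i, rfl⟩)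
  have hfg : (Submodule.span S (Set.range fun i => winv ^ (3 * r + m) * u i)).FG :=
    Submodule.fg_span (Set.finite_range _)
  have hnoe : IsNoetherian S
      (Submodule.span S (Set.range fun i => winv ^ (3 * r + m) * u i)) :=
    isNoetherian_of_fg_of_noetherian _ hfg
  have hnoe2 : IsNoetherian S N2 := isNoetherian_of_le hle
  have hfin : Module.Finite S N2 := Module.IsNoetherian.finite S N2
  -- torsion-free
  have htf : Module.IsTorsionFree S N2 := by
    refine ⟨fun c hc x y hxy => ?_⟩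
    have hc0 : algebraMap S K c ≠ 0 := by
      intro h0
      have : c = 0 := hinj (by rw [h0, map_zero])
      exact hc.ne_zero this
    apply Subtype.ext
    have h3 := congrArg Subtype.val hxy
    simp only [Submodule.coe_smul] at h3
    rw [hsm, hsm] at h3
    exact smul_right_injective V hc0 h3
  let N : Submodule S N2 :=
    { carrier := {y | η' * (y : V) ^ 2 ∈ V₀}
      add_mem' := by
        intro a b ha hb
        have : η' * ((a + b : N2) : V) ^ 2 = η' * (a : V) ^ 2 + η' * (b : V) ^ 2 := by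
          rw [Submodule.coe_add]
          linear_combination (η' * (a : V) * b) * h2
        change η' * ((a + b : N2) : V) ^ 2 ∈ V₀
        rw [this]; exact V₀.add_mem ha hb
      zero_mem' := by
        change η' * ((0 : N2) : V) ^ 2 ∈ V₀
        have : η' * ((0 : N2) : V) ^ 2 = 0 := by simp
        rw [this]; exact V₀.zero_mem
      smul_mem' := by
        intro c a ha
        change η' * ((c • a : N2) : V) ^ 2 ∈ V₀
        have : η' * ((c • a : N2) : V) ^ 2 = c ^ 2 • (η' * (a : V) ^ 2) := by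
          rw [Submodule.coe_smul, _root_.smul_pow, mul_smul_comm]
        rw [this]; exact V₀.smul_mem ha _ }
  have hN : ∀ y : N2, y ∈ N ↔ η' * (y : V) ^ 2 ∈ V₀ := fun y => Iff.rfl
  obtain ⟨k, b, hb⟩ := hrc_adapt N ϖ hϖ (by
    intro x
    rw [hN]
    have : η' * ((ϖ • x : N2) : V) ^ 2 = ϖ • (ϖ • (η' * (x : V) ^ 2)) := by
      rw [Submodule.coe_smul, _root_.smul_pow, mul_smul_comm, smul_smul, sq]
    rw [this]
    exact V₀.smul_mem ((hN2 _).1 x.2).2 ϖ)
  -- the K-basis
  let f : Fin k → V := fun i => (b i : V)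
  have hli : LinearIndependent S f := b.linearIndependent.map' N2.subtype (by simp)
  have hliK : LinearIndependent K f := (LinearIndependent.iff_fractionRing S K).1 hli
  have hN2exp : ∀ (y : V) (hy : y ∈ N2), y = ∑ i, algebraMap S K (b.repr ⟨y, hy⟩ i) • f i := by
    intro y hy
    have h3 := congrArg N2.subtype (b.sum_repr ⟨y, hy⟩)
    rw [map_sum] at h3
    simp only [map_smul, hsm] at h3
    exact h3.symm
  have hspan : ⊤ ≤ Submodule.span K (Set.range f) := by
    intro x _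
    have hN2span : ∀ y ∈ N2, y ∈ Submodule.span K (Set.range f) := by
      intro y hy
      rw [hN2exp y hy]
      exact Submodule.sum_mem _ fun i _ => Submodule.smul_mem _ _ (Submodule.subset_span ⟨i, rfl⟩)
    have h3 : x = w ^ r * (winv ^ r * x) := by
      rw [← mul_assoc, ← mul_pow, hwi, one_pow, one_mul]
    rw [h3, hp.span (winv ^ r * x), Finset.mul_sum]
    refine Submodule.sum_mem _ fun i _ => ?_
    rw [mul_smul_comm]
    refine Submodule.smul_mem _ _ (hN2span _ ((hN2 _).2 ⟨?_, ?_⟩))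
    · exact V₀.mul_mem (V₀.pow_mem hw _) (V₀.mul_mem (V₀.pow_mem hw _) (hu i))
    · have : ϖ • (η' * (w ^ r * u i) ^ 2) = ϖ • ((w ^ (2 * r) * η') * u i ^ 2) := by
        congr 1; ring
      rw [this]
      exact V₀.smul_mem (V₀.mul_mem hr' (V₀.pow_mem (hu i) _)) ϖ
  let bK : Module.Basis (Fin k) K V := Module.Basis.mk hliK hspan
  have hbK : ∀ i, bK i = f i := fun i => by simp [bK]
  have hco : ∀ (y : V) (hy : y ∈ N2) (i : Fin k),
      bK.repr y i = algebraMap S K (b.repr ⟨y, hy⟩ i) := by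
    intro y hy i
    conv_lhs => rw [hN2exp y hy]
    simp only [← hbK]
    rw [bK.repr_sum_self]
  let fs : Fin k → V := fun i => ∑ j, bK.repr (u j) i • u' j
  have hfs : ∀ i y, s (fs i * y) = bK.repr y i := by
    intro i y
    have h3 : bK.repr y i = ∑ j, s (y * u' j) * bK.repr (u j) i := by
      conv_lhs => rw [hp.span y]
      rw [map_sum, Finsupp.finsetSum_apply]
      refine Finset.sum_congr rfl fun j _ => ?_
      rw [map_smul, Finsupp.smul_apply, smul_eq_mul]
    rw [h3]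
    simp only [fs]
    rw [Finset.sum_mul, map_sum]
    refine Finset.sum_congr rfl fun j _ => ?_
    rw [smul_mul_assoc, map_smul, smul_eq_mul, mul_comm (u' j), mul_comm]
  have hdp : DualPair s fs f := by
    refine ⟨?_, ?_⟩
    · intro i j
      rw [hfs, ← hbK, Module.Basis.repr_self, Finsupp.single_apply]
      simp only [eq_comm]
    · intro x
      rw [← sub_eq_zero]
      apply hrc_nondeg hp
      intro y
      rw [sub_mul, map_sub, sub_eq_zero]
      have h3 : y = ∑ i, bK.repr y i • f i := by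
        simp only [← hbK]; exact (bK.sum_repr y).symm
      conv_lhs => rw [h3]
      rw [Finset.mul_sum, map_sum, Finset.sum_mul, map_sum]
      refine Finset.sum_congr rfl fun i _ => ?_
      rw [mul_smul_comm, map_smul, smul_mul_assoc, map_smul, smul_eq_mul, smul_eq_mul, hfs,
        mul_comm]
  rw [PS_indep s D hD η η' hp hdp]
  unfold PS
  refine hsum _ _ fun i _ => ?_
  have hN2mul : ∀ y ∈ N2, ∀ v ∈ V₀, y * v ∈ N2 := by
    intro y hy v hv
    obtain ⟨h3, h4⟩ := (hN2 y).1 hy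
    refine (hN2 _).2 ⟨?_, ?_⟩
    · rw [← mul_assoc]; exact V₀.mul_mem h3 hv
    · have : ϖ • (η' * (y * v) ^ 2) = ϖ • (η' * y ^ 2) * v ^ 2 := by
        rw [smul_mul_assoc]; congr 1; ring
      rw [this]
      exact V₀.mul_mem h4 (V₀.pow_mem hv _)
  rcases hb i with hi | hi
  · -- the basis vector lies in `N`
    obtain ⟨z, hz, hze⟩ := hrc_claim2 (K := K) ϖ hp0 V₀ w η η' (fs i) hw hη r m hr hr' v₀ hv₀ hm (by
      intro y h3 h4
      have hy : y ∈ N2 := (hN2 y).2 ⟨h3, h4⟩
      apply hV0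
      intro v hv
      rw [mul_assoc, hfs, hco _ (hN2mul y hy v hv)]
      exact ⟨_, rfl⟩)
    obtain ⟨c1, hc1⟩ := hs z hz
    obtain ⟨c2, hc2⟩ := hs _ ((hN (b i)).1 hi)
    obtain ⟨c3, hc3⟩ := hDS c2
    refine ⟨c1 * c3, ?_⟩
    rw [hze, map_smul, smul_eq_mul, hc1]
    change _ * D (s (η' * (b i : V) ^ 2)) = _
    rw [hc2, hc3, map_mul, map_mul]
    ring
  · have h5 : η * ((algebraMap S K ϖ)⁻¹ • fs i) ^ 2 ∈ V₀ := by
      apply hrc_claim1 V₀ w η η' _ hw hη r m hr hr'
      intro y h3 h4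
      have hy : y ∈ N2 := (hN2 y).2 ⟨h3, V₀.smul_mem h4 ϖ⟩
      apply hV0
      intro v hv
      have hyv := hN2mul y hy v hv
      obtain ⟨c, hc⟩ := hi ⟨y * v, hyv⟩ (by
        rw [hN]
        have : η' * (y * v) ^ 2 = η' * y ^ 2 * v ^ 2 := by ring
        change η' * (y * v) ^ 2 ∈ V₀
        rw [this]
        exact V₀.mul_mem h4 (V₀.pow_mem hv _))
      refine ⟨c, ?_⟩
      rw [smul_mul_assoc, smul_mul_assoc, map_smul, smul_eq_mul, mul_assoc, hfs, hco _ hyv, hc,
        map_mul]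
      field_simp
    obtain ⟨c1, hc1⟩ := hs _ h5
    obtain ⟨c2, hc2⟩ := hs _ ((hN2 _).1 (b i).2).2
    obtain ⟨c3, hc3⟩ := hDS c2
    rw [hsm, map_smul, smul_eq_mul] at hc2
    rw [_root_.smul_pow, mul_smul_comm, map_smul, smul_eq_mul] at hc1
    rw [← hc2, hDϖ] at hc3
    have h6 : s (η * fs i ^ 2) = algebraMap S K ϖ ^ 2 * algebraMap S K c1 := by
      rw [← hc1]; field_simp
    refine ⟨c1 * c3, ?_⟩
    rw [h6]
    change _ * D (s (η' * (b i : V) ^ 2)) = _
    rw [RingHom.map_mul, RingHom.map_mul, ← hc3]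
    ring

end Pool.Agent.Helper47.HR
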