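import Mathlib

set_option autoImplicit false

/-! Definitions for the counterexample to the Hermite ring conjecture (MP_062089_al). -/

namespace Pool.Agent.Helper47.HR

open Polynomial Matrix

/-- `Rs x q`: the coefficient of `z^{-1}` in the expansion at infinity of `x / q`. -/
noncomputable def Rs {K : Type*} [Field K] (x q : K[X]) : K :=
  (x % q).coeff (q.natDegree - 1) / q.leadingCoeff

/-- coefficientwise application of an additive map to a polynomial -/
noncomputable def mapD {K : Type*} [CommRing K] (D : K →+ K) (f : K[X]) : K[X] :=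
  ∑ i ∈ Finset.range (f.natDegree + 1), monomial i (D (f.coeff i))

/-- `dl D f = D (∂ f)` -/
noncomputable def dl {K : Type*} [CommRing K] (D : K →+ K) (f : K[X]) : K[X] :=
  derivative (mapD D f)

/-- The invariant `Ξ_D` of a matrix with first row `a, b` and lower left entry `c`:
the coefficient of `z^{-1}` at infinity of `(c/z) D(∂(ab)) / a`. -/
noncomputable def Xi {K : Type*} [Field K] (D : K →+ K) (a b c : K[X]) : K :=
  Rs (c.divX * dl D (a * b)) a

/-- transvection in characteristic two -/
def U {R : Type*} [CommRing R] (v₁ v₂ f : R) : Matrix (Fin 2) (Fin 2) R :=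
  !![1 + v₁ * v₂ * f, v₁ ^ 2 * f; v₂ ^ 2 * f, 1 + v₁ * v₂ * f]

/-- the explicit matrix `α` over `k[z]` -/
noncomputable def alpha {k : Type*} [CommRing k] (x y : k) : Matrix (Fin 2) (Fin 2) k[X] :=
  U 1 1 (C (x * y) * X) * U 1 (C y) (C x * X) * U 1 (C x) (C y * X) * U 1 (C (x * y)) X *
    U 1 0 (C ((1 + x) * (1 + y)) * X) * U 0 1 (C (x * y * ((1 + x) * (1 + y))) * X)

/-- the block matrix `diag(M, 1)` -/
def emb3 {R : Type*} [CommRing R] (M : Matrix (Fin 2) (Fin 2) R) : Matrix (Fin 3) (Fin 3) R :=
  !![M 0 0, M 0 1, 0; M 1 0, M 1 1, 0; 0, 0, 1]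

/-- two families of vectors which are dual bases for the trace form `s (x y)` -/
structure DualPair {K V : Type*} [Field K] [CommRing V] [Algebra K V] (s : V →ₗ[K] K)
    {n : ℕ} (e e' : Fin n → V) : Prop where
  orth : ∀ i j, s (e i * e' j) = if i = j then 1 else 0
  span : ∀ x, x = ∑ i, s (x * e' i) • e i

/-- the pairing sum -/
noncomputable def PS {K V : Type*} [Field K] [CommRing V] [Algebra K V] (s : V →ₗ[K] K)
    (D : K →+ K) (η η' : V) {n : ℕ} (e e' : Fin n → V) : K :=
  ∑ i, s (η * e i ^ 2) * D (s (η' * e' i ^ 2))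

/-- the (positive) Hermite ring conjecture, as frozen -/
def HRC : Prop :=
    (∀ (A : Type) [CommRing A],
      (∀ (M : Type) [AddCommGroup M] [Module A M],
        (∃ n m : ℕ, Nonempty ((M × (Fin n → A)) ≃ₗ[A] (Fin m → A))) →
          Module.Free A M) →
      ∀ (M : Type) [AddCommGroup M] [Module (Polynomial A) M],
        (∃ n m : ℕ, Nonempty ((M × (Fin n → Polynomial A)) ≃ₗ[Polynomial A]
            (Fin m → Polynomial A))) →
          Module.Free (Polynomial A) M)

end Pool.Agent.Helper47.HR
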