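import Pool.Agent.Helper47.HR.Defs

set_option autoImplicit false

/-! Module E: the matrix `diag(α, 1)` lifts to `SL₃(k[X,Y])`. -/

namespace Pool.Agent.Helper47.HR

open Polynomial Matrix
open scoped commutatorElement

/-! ### the abstract computation -/

section Abstract

variable {k Q : Type*} [CommRing k] [CharP k 2] [AddCommGroup Q]

/-- a map which is additive in each variable on orthogonal pairs -/
structure Bi (τ : (Fin 3 → k) → (Fin 3 → k) → Q) : Prop where
  left : ∀ v v' w, w ⬝ᵥ v = 0 → w ⬝ᵥ v' = 0 → τ (v + v') w = τ v w + τ v' w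
  right : ∀ v w w', w ⬝ᵥ v = 0 → w' ⬝ᵥ v = 0 → τ v (w + w') = τ v w + τ v w'
  smul : ∀ (s : k) v w, w ⬝ᵥ v = 0 → τ (s • v) w = τ v (s • w)

theorem Bi.two {τ : (Fin 3 → k) → (Fin 3 → k) → Q} (h : Bi τ) (v w : Fin 3 → k)
    (hvw : w ⬝ᵥ v = 0) : τ v w + τ v w = 0 := by
  have h0 : ∀ w, τ 0 w = 0 := by
    intro w
    have := h.left 0 0 w (dotProduct_zero w) (dotProduct_zero w)
    rw [add_zero] at this
    exact left_eq_add.mp this
  have h2 : v + v = 0 := by
    ext i
    exact CharTwo.add_self_eq_zero (v i)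
  rw [← h.left v v w hvw hvw, h2, h0]

/-- the elements `h_ij(s, t)` -/
def hh (τ : (Fin 3 → k) → (Fin 3 → k) → Q) (e f : Fin 3 → k) (s t : k) : Q :=
  τ (e + s • f) (t • (s • e + f)) + τ e (t • f) + τ f ((t * s ^ 2) • e)

theorem Bi.R {τ : (Fin 3 → k) → (Fin 3 → k) → Q} (h : Bi τ) (e f g : Fin 3 → k)
    (hee : e ⬝ᵥ e = 1) (hff : f ⬝ᵥ f = 1) (hgg : g ⬝ᵥ g = 1)
    (hef : e ⬝ᵥ f = 0) (hfe : f ⬝ᵥ e = 0) (heg : e ⬝ᵥ g = 0) (hge : g ⬝ᵥ e = 0)
    (hfg : f ⬝ᵥ g = 0) (hgf : g ⬝ᵥ f = 0) (s t : k) :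
    hh τ e f s t = hh τ e g (t * s) 1 + hh τ f g t s := by
  have two : ∀ v : Fin 3 → k, v + v = 0 := fun v => by
    ext i
    exact CharTwo.add_self_eq_zero (v i)
  have two' : ∀ a : k, a + a = 0 := fun a => CharTwo.add_self_eq_zero a
  -- orthogonality by computation
  have dp : ∀ a b c a' b' c' : k, a * a' + b * b' + c * c' = 0 →
      (a • e + b • f + c • g) ⬝ᵥ (a' • e + b' • f + c' • g) = 0 := by
    intro a b c a' b' c' h
    simp only [add_dotProduct, dotProduct_add, smul_dotProduct, dotProduct_smul, hee, hff, hgg,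
      hef, hfe, heg, hge, hfg, hgf, smul_eq_mul, mul_zero, mul_one, zero_add, add_zero]
    linear_combination h
  -- `F a b c a' b' c'` is `τ` of the combinations
  set F : k → k → k → k → k → k → Q := fun a b c a' b' c' =>
    τ (a • e + b • f + c • g) (a' • e + b' • f + c' • g) with hF
  have L : ∀ a b c x y z a' b' c' : k, a' * a + b' * b + c' * c = 0 →
      a' * x + b' * y + c' * z = 0 →
      F (a + x) (b + y) (c + z) a' b' c' = F a b c a' b' c' + F x y z a' b' c' := by
    intro a b c x y z a' b' c' h1 h2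
    have := h.left (a • e + b • f + c • g) (x • e + y • f + z • g)
      (a' • e + b' • f + c' • g) (dp _ _ _ _ _ _ h1) (dp _ _ _ _ _ _ h2)
    simp only [hF]
    rw [← this]
    congr 1
    module
  have Rr : ∀ a b c x y z a' b' c' : k, x * a + y * b + z * c = 0 →
      a' * a + b' * b + c' * c = 0 →
      F a b c (x + a') (y + b') (z + c') = F a b c x y z + F a b c a' b' c' := by
    intro a b c x y z a' b' c' h1 h2
    have := h.right (a • e + b • f + c • g) (x • e + y • f + z • g)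
      (a' • e + b' • f + c' • g) (dp _ _ _ _ _ _ h1) (dp _ _ _ _ _ _ h2)
    simp only [hF]
    rw [← this]
    congr 1
    module
  have Sm : ∀ r a b c a' b' c' : k, a' * a + b' * b + c' * c = 0 →
      F (r * a) (r * b) (r * c) a' b' c' = F a b c (r * a') (r * b') (r * c') := by
    intro r a b c a' b' c' h1
    have := h.smul r (a • e + b • f + c • g) (a' • e + b' • f + c' • g) (dp _ _ _ _ _ _ h1)
    simp only [hF]
    calc _ = τ (r • (a • e + b • f + c • g)) (a' • e + b' • f + c' • g) := by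
          congr 1
          module
      _ = _ := this
      _ = _ := by
          congr 1
          module
  have T2 : ∀ a b c a' b' c' : k, a' * a + b' * b + c' * c = 0 →
      F a b c a' b' c' + F a b c a' b' c' = 0 := by
    intro a b c a' b' c' h1
    exact h.two _ _ (dp _ _ _ _ _ _ h1)
  have e1 : hh τ e f s t = F 1 s 0 (t * s) t 0 + F 1 0 0 0 t 0 + F 0 1 0 (t * s ^ 2) 0 0 := by
    simp only [hh, hF]
    congr 1
    · congr 1
      · congr 1
        · module
        · module
      · congr 1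
        · module
        · module
    · congr 1
      · module
      · module
  have e2 : hh τ e g (t * s) 1 = F 1 0 (t * s) (t * s) 0 1 + F 1 0 0 0 0 1 +
      F 0 0 1 ((t * s) ^ 2) 0 0 := by
    simp only [hh, hF]
    congr 1
    · congr 1
      · congr 1
        · module
        · module
      · congr 1
        · module
        · module
    · congr 1
      · module
      · module
  have e3 : hh τ f g t s = F 0 1 t 0 (s * t) s + F 0 1 0 0 0 s +
      F 0 0 1 0 (s * t ^ 2) 0 := by
    simp only [hh, hF]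
    congr 1
    · congr 1
      · congr 1
        · module
        · module
      · congr 1
        · module
        · module
    · congr 1
      · module
      · module
  have o1 : t * s + t * s = 0 := two' _
  -- the decomposition
  have d1 : F 1 s 0 (t * s) t 0 = F 1 s 0 (t * s) t 1 + F 1 s 0 0 0 1 := by
    have := Rr 1 s 0 (t * s) t 1 0 0 1 (by linear_combination o1) (by ring)
    rwa [add_zero, add_zero, two' 1] at this
  have d2 : F 1 s 0 (t * s) t 1 = F 1 0 (t * s) (t * s) t 1 + F 0 s (t * s) (t * s) t 1 := by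
    have := L 1 0 (t * s) 0 s (t * s) (t * s) t 1 (by linear_combination o1)
      (by linear_combination o1)
    rwa [add_zero, zero_add, o1] at this
  have d3 : F 1 0 (t * s) (t * s) t 1 = F 1 0 (t * s) (t * s) 0 1 + F 1 0 (t * s) 0 t 0 := by
    have := Rr 1 0 (t * s) (t * s) 0 1 0 t 0 (by linear_combination o1) (by ring)
    rwa [add_zero, zero_add, add_zero] at this
  have d4 : F 1 0 (t * s) 0 t 0 = F 1 0 0 0 t 0 + F 0 0 1 0 (s * t ^ 2) 0 := by
    have h1 := L 1 0 0 0 0 (t * s) 0 t 0 (by ring) (by ring)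
    rw [add_zero, add_zero, zero_add] at h1
    have h2 := Sm (t * s) 0 0 1 0 t 0 (by ring)
    rw [mul_zero, mul_one, show t * s * t = s * t ^ 2 by ring] at h2
    rw [h1, h2]
  have d5 : F 0 s (t * s) (t * s) t 1 = F 0 s (t * s) 0 t 1 + F 0 s (t * s) (t * s) 0 0 := by
    have := Rr 0 s (t * s) 0 t 1 (t * s) 0 0 (by linear_combination o1) (by ring)
    rwa [zero_add, add_zero, add_zero] at this
  have d6 : F 0 s (t * s) 0 t 1 = F 0 1 t 0 (s * t) s := by
    have := Sm s 0 1 t 0 t 1 (by linear_combination two' t)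
    rw [mul_zero, mul_one] at this
    rw [mul_comm t s]
    exact this
  have d7 : F 0 s (t * s) (t * s) 0 0 = F 0 1 0 (t * s ^ 2) 0 0 + F 0 0 1 ((t * s) ^ 2) 0 0 := by
    have h1 := L 0 s 0 0 0 (t * s) (t * s) 0 0 (by ring) (by ring)
    rw [add_zero, add_zero, zero_add] at h1
    have h2 := Sm s 0 1 0 (t * s) 0 0 (by ring)
    rw [mul_zero, mul_one, show s * (t * s) = t * s ^ 2 by ring] at h2
    have h3 := Sm (t * s) 0 0 1 (t * s) 0 0 (by ring)
    rw [mul_zero, mul_one, show t * s * (t * s) = (t * s) ^ 2 by ring] at h3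
    rw [h1, h2, h3]
  have d8 : F 1 s 0 0 0 1 = F 1 0 0 0 0 1 + F 0 1 0 0 0 s := by
    have h1 := L 1 0 0 0 s 0 0 0 1 (by ring) (by ring)
    rw [add_zero, zero_add, add_zero] at h1
    have h2 := Sm s 0 1 0 0 0 1 (by ring)
    rw [mul_zero, mul_one] at h2
    rw [h1, h2]
  have t1 := T2 1 0 0 0 t 0 (by ring)
  have t2 := T2 0 1 0 (t * s ^ 2) 0 0 (by ring)
  rw [e1, e2, e3, d1, d2, d3, d4, d5, d6, d7, d8]
  have key : ∀ A B C' D E G H I : Q, E + E = 0 → G + G = 0 →
      (((A + (E + B)) + (C' + (G + D))) + (H + I)) + E + G =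
      (A + H + D) + (C' + I + B) := by
    intro A B C' D E G H I h1 h2
    calc _ = ((A + H + D) + (C' + I + B)) + (E + E) + (G + G) := by abel
      _ = _ := by rw [h1, h2, add_zero, add_zero]
  exact key _ _ _ _ _ _ _ _ t1 t2

/-- the final relation -/
theorem Bi.final {τ : (Fin 3 → k) → (Fin 3 → k) → Q} (h : Bi τ) (x y : k) :
    hh τ ![1, 0, 0] ![0, 1, 0] 1 (x * y) + hh τ ![1, 0, 0] ![0, 1, 0] y x +
      hh τ ![1, 0, 0] ![0, 1, 0] x y + hh τ ![1, 0, 0] ![0, 1, 0] (x * y) 1 = 0 := by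
  set e : Fin 3 → k := ![1, 0, 0] with he
  set f : Fin 3 → k := ![0, 1, 0] with hf
  set g : Fin 3 → k := ![0, 0, 1] with hg
  have hee : e ⬝ᵥ e = 1 := by simp [he]
  have hff : f ⬝ᵥ f = 1 := by simp [hf]
  have hgg : g ⬝ᵥ g = 1 := by simp [hg]
  have hef : e ⬝ᵥ f = 0 := by simp [he, hf]
  have hfe : f ⬝ᵥ e = 0 := by simp [he, hf]
  have heg : e ⬝ᵥ g = 0 := by simp [he, hg]
  have hge : g ⬝ᵥ e = 0 := by simp [he, hg]
  have hfg : f ⬝ᵥ g = 0 := by simp [hf, hg]
  have hgf : g ⬝ᵥ f = 0 := by simp [hf, hg]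
  -- order two
  have Z2 : ∀ (a b : Fin 3 → k), a ⬝ᵥ a = 1 → b ⬝ᵥ b = 1 → a ⬝ᵥ b = 0 → b ⬝ᵥ a = 0 →
      ∀ s t : k, hh τ a b s t + hh τ a b s t = 0 := by
    intro a b haa hbb hab hba s t
    have h1 : (t • (s • a + b)) ⬝ᵥ (a + s • b) = 0 := by
      simp only [add_dotProduct, dotProduct_add, smul_dotProduct, dotProduct_smul, haa, hbb,
        hab, hba, smul_eq_mul, mul_zero, mul_one, zero_add, add_zero]
      linear_combination CharTwo.add_self_eq_zero (t * s)
    have h2 : (t • b) ⬝ᵥ a = 0 := by rw [smul_dotProduct, hba, smul_zero]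
    have h3 : ((t * s ^ 2) • a) ⬝ᵥ b = 0 := by rw [smul_dotProduct, hab, smul_zero]
    have k1 := h.two _ _ h1
    have k2 := h.two _ _ h2
    have k3 := h.two _ _ h3
    simp only [hh]
    calc _ = (τ (a + s • b) (t • (s • a + b)) + τ (a + s • b) (t • (s • a + b))) +
          (τ a (t • b) + τ a (t • b)) + (τ b ((t * s ^ 2) • a) + τ b ((t * s ^ 2) • a)) := by
            abel
      _ = 0 := by rw [k1, k2, k3, add_zero, add_zero]
  have main : ∀ x y : k, hh τ e f y x + hh τ e f x y =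
      hh τ e g (x * y) 1 + hh τ f e (x * y) 1 + hh τ g f (x * y) 1 := by
    intro x y
    have r1 := h.R e f g hee hff hgg hef hfe heg hge hfg hgf y x
    have r2 := h.R f g e hff hgg hee hfg hgf hfe hef hge heg x y
    have r3 := h.R g e f hgg hee hff hge heg hgf hfg hef hfe y x
    rw [mul_comm y x] at r2
    rw [r1, r2, r3]
    have z := Z2 e f hee hff hef hfe x y
    calc _ = (hh τ e g (x * y) 1 + hh τ f e (x * y) 1 + hh τ g f (x * y) 1) +
          (hh τ e f x y + hh τ e f x y) := by abel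
      _ = _ := by rw [z, add_zero]
  have m1 := main x y
  have m2 := main (x * y) 1
  rw [mul_one] at m2
  have z1 := Z2 e f hee hff hef hfe y x
  have z2 := Z2 e f hee hff hef hfe x y
  calc _ = (hh τ e f y x + hh τ e f x y) + (hh τ e f 1 (x * y) + hh τ e f (x * y) 1) := by abel
    _ = (hh τ e f y x + hh τ e f x y) + (hh τ e f y x + hh τ e f x y) := by rw [m2, m1]
    _ = (hh τ e f y x + hh τ e f y x) + (hh τ e f x y + hh τ e f x y) := by abel
    _ = 0 := by rw [z1, z2, add_zero]

end Abstract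

/-! ### the transvections -/

section Trans

variable {k : Type*} [CommRing k]

/-- the matrix `1 + z v wᵀ` -/
noncomputable def Tm (v w : Fin 3 → k) : Matrix (Fin 3) (Fin 3) k[X] :=
  fun i j => (1 : Matrix (Fin 3) (Fin 3) k[X]) i j + C (v i * w j) * X

theorem Tm_dot (v w : Fin 3 → k) (h : w ⬝ᵥ v = 0) :
    (C (w 0) * C (v 0) + C (w 1) * C (v 1) + C (w 2) * C (v 2) : k[X]) = 0 := by
  rw [← C_mul, ← C_mul, ← C_mul, ← C_add, ← C_add]
  rw [dotProduct, Fin.sum_univ_three] at h
  rw [h, C_0]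

theorem Tm_det (v w : Fin 3 → k) (h : w ⬝ᵥ v = 0) : (Tm v w).det = 1 := by
  have h' := Tm_dot v w h
  rw [Matrix.det_fin_three]
  simp only [Tm, Matrix.one_apply_eq, Matrix.one_apply_ne, ne_eq, Fin.isValue, C_mul,
    show (0 : Fin 3) ≠ 1 by decide, show (0 : Fin 3) ≠ 2 by decide,
    show (1 : Fin 3) ≠ 0 by decide, show (1 : Fin 3) ≠ 2 by decide,
    show (2 : Fin 3) ≠ 0 by decide, show (2 : Fin 3) ≠ 1 by decide, not_false_eq_true]
  linear_combination X * h'

theorem Tm_mul_left (v v' w : Fin 3 → k) (h : w ⬝ᵥ v' = 0) :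
    Tm v w * Tm v' w = Tm (v + v') w := by
  have h' := Tm_dot v' w h
  have e : ∀ i j, (Tm v w * Tm v' w) i j =
      (1 : Matrix (Fin 3) (Fin 3) k[X]) i j + C ((v i + v' i) * w j) * X +
        C (v i) * C (w j) * X ^ 2 *
          (C (w 0) * C (v' 0) + C (w 1) * C (v' 1) + C (w 2) * C (v' 2)) := by
    intro i j
    have h1 : Tm v w * Tm v' w = 1 + (Tm v w - 1) + (Tm v' w - 1) +
      (Tm v w - 1) * (Tm v' w - 1) := by noncomm_ring
    rw [h1]
    simp only [Matrix.add_apply, Matrix.sub_apply, Matrix.mul_apply, Fin.sum_univ_three, Tm,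
      C_mul, C_add]
    ring
  ext1 i j
  rw [e, h', mul_zero, add_zero]
  rfl

theorem Tm_mul_right (v w w' : Fin 3 → k) (h : w ⬝ᵥ v = 0) :
    Tm v w * Tm v w' = Tm v (w + w') := by
  have h' := Tm_dot v w h
  have e : ∀ i j, (Tm v w * Tm v w') i j =
      (1 : Matrix (Fin 3) (Fin 3) k[X]) i j + C (v i * (w j + w' j)) * X +
        C (v i) * C (w' j) * X ^ 2 *
          (C (w 0) * C (v 0) + C (w 1) * C (v 1) + C (w 2) * C (v 2)) := by
    intro i j
    have h1 : Tm v w * Tm v w' = 1 + (Tm v w - 1) + (Tm v w' - 1) +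
      (Tm v w - 1) * (Tm v w' - 1) := by noncomm_ring
    rw [h1]
    simp only [Matrix.add_apply, Matrix.sub_apply, Matrix.mul_apply, Fin.sum_univ_three, Tm,
      C_mul, C_add]
    ring
  ext1 i j
  rw [e, h', mul_zero, add_zero]
  rfl

theorem Tm_smul (s : k) (v w : Fin 3 → k) : Tm (s • v) w = Tm v (s • w) := by
  ext1 i j
  simp only [Tm, Pi.smul_apply, smul_eq_mul]
  congr 2
  congr 1
  ring

theorem Tm_eval (v w : Fin 3 → k) : (Tm v w).map (evalRingHom 0) = 1 := by
  ext i j
  simp only [Tm, Matrix.map_apply, coe_evalRingHom, eval_add, eval_mul, eval_X, mul_zero,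
    add_zero]
  by_cases h : i = j
  · subst h
    simp
  · simp [Matrix.one_apply_ne h]

variable (k) in
/-- the group of the matrices which are `1` at `z = 0` -/
noncomputable def Gam : Subgroup (SpecialLinearGroup (Fin 3) k[X]) :=
  (SpecialLinearGroup.map (evalRingHom (0 : k))).ker

variable (k) in
/-- the group of the matrices with a lift -/
noncomputable def Hs : Subgroup (SpecialLinearGroup (Fin 3) k[X]) :=
  ((SpecialLinearGroup.map (n := Fin 3) (evalRingHom (0 : k[X]))).ker ⊓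
    (SpecialLinearGroup.map (n := Fin 3) (mapRingHom (evalRingHom (0 : k)))).ker).map
      (SpecialLinearGroup.map (evalRingHom (X : k[X])))

theorem commutator_mem (g h : SpecialLinearGroup (Fin 3) k[X]) (hg : g ∈ Gam k)
    (hh : h ∈ Gam k) : ⁅g, h⁆ ∈ Hs k := by
  have comp : ∀ {A B D : Type _} [CommRing A] [CommRing B] [CommRing D] (φ : A →+* B)
      (ψ : B →+* D) (m : SpecialLinearGroup (Fin 3) A),
      SpecialLinearGroup.map ψ (SpecialLinearGroup.map φ m) =
        SpecialLinearGroup.map (ψ.comp φ) m := by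
    intro A B D _ _ _ φ ψ m
    ext i j
    rfl
  have mid : ∀ (m : SpecialLinearGroup (Fin 3) k[X]),
      SpecialLinearGroup.map (RingHom.id k[X]) m = m := by
    intro m
    ext i j
    rfl
  have one : ∀ {A : Type _} [CommRing A] (φ : k →+* A) (m : SpecialLinearGroup (Fin 3) k[X]),
      m ∈ Gam k → SpecialLinearGroup.map (φ.comp (evalRingHom 0)) m = 1 := by
    intro A _ φ m hm
    rw [← comp]
    have : SpecialLinearGroup.map (evalRingHom (0 : k)) m = 1 := hm
    rw [this, map_one]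
  refine ⟨⁅SpecialLinearGroup.map (C : k[X] →+* k[X][X]) g,
    SpecialLinearGroup.map (mapRingHom (C : k →+* k[X])) h⁆, ⟨?_, ?_⟩, ?_⟩
  · show SpecialLinearGroup.map _ _ = 1
    rw [map_commutatorElement, comp, comp]
    have h2 : (evalRingHom (0 : k[X])).comp (mapRingHom (C : k →+* k[X])) =
        (C : k →+* k[X]).comp (evalRingHom 0) := by
      ext : 1
      · ext a
        simp
      · simp
    rw [h2, one _ h hh, commutatorElement_one_right]
  · show SpecialLinearGroup.map _ _ = 1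
    rw [map_commutatorElement, comp, comp]
    have h2 : (mapRingHom (evalRingHom (0 : k))).comp (C : k[X] →+* k[X][X]) =
        (C : k →+* k[X]).comp (evalRingHom 0) := by
      ext : 1
      · ext a
        simp
      · simp
    rw [h2, one _ g hg, commutatorElement_one_left]
  · rw [map_commutatorElement, comp, comp]
    have h1 : (evalRingHom (X : k[X])).comp (C : k[X] →+* k[X][X]) = RingHom.id _ := by
      ext : 1
      · ext a
        simp
      · simp
    have h2 : (evalRingHom (X : k[X])).comp (mapRingHom (C : k →+* k[X])) = RingHom.id _ := by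
      ext : 1
      · ext a
        simp
      · simp
    rw [h1, h2, mid, mid]

/-- the transvection as an element of `Gam` -/
noncomputable def Tg (v w : Fin 3 → k) (h : w ⬝ᵥ v = 0) : Gam k :=
  ⟨⟨Tm v w, Tm_det v w h⟩, by
    show SpecialLinearGroup.map _ _ = 1
    apply Subtype.ext
    exact Tm_eval v w⟩

open scoped Classical in
/-- the class of the transvection -/
noncomputable def tau (v w : Fin 3 → k) : Additive (Abelianization (Gam k)) :=
  if h : w ⬝ᵥ v = 0 then Additive.ofMul (Abelianization.of (Tg v w h)) else 0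

theorem tau_eq (v w : Fin 3 → k) (h : w ⬝ᵥ v = 0) :
    tau v w = Additive.ofMul (Abelianization.of (Tg v w h)) := dif_pos h

theorem tau_bi : Bi (tau : (Fin 3 → k) → (Fin 3 → k) → Additive (Abelianization (Gam k))) where
  left v v' w h h' := by
    have h'' : w ⬝ᵥ (v + v') = 0 := by rw [dotProduct_add, h, h', add_zero]
    rw [tau_eq _ _ h, tau_eq _ _ h', tau_eq _ _ h'', ← ofMul_mul, ← map_mul]
    congr 2
    apply Subtype.ext
    apply Subtype.ext
    exact (Tm_mul_left v v' w h').symm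
  right v w w' h h' := by
    have h'' : (w + w') ⬝ᵥ v = 0 := by rw [add_dotProduct, h, h', add_zero]
    rw [tau_eq _ _ h, tau_eq _ _ h', tau_eq _ _ h'', ← ofMul_mul, ← map_mul]
    congr 2
    apply Subtype.ext
    apply Subtype.ext
    exact (Tm_mul_right v w w' h).symm
  smul s v w h := by
    have h1 : w ⬝ᵥ (s • v) = 0 := by rw [dotProduct_smul, h, smul_zero]
    have h2 : (s • w) ⬝ᵥ v = 0 := by rw [smul_dotProduct, h, smul_zero]
    rw [tau_eq _ _ h1, tau_eq _ _ h2]
    congr 2
    apply Subtype.ext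
    apply Subtype.ext
    exact Tm_smul s v w

theorem mem_Hs_of (g : Gam k) (h : Abelianization.of g = 1) :
    (g : SpecialLinearGroup (Fin 3) k[X]) ∈ Hs k := by
  have h1 : g ∈ commutator (Gam k) := by
    rw [← Abelianization.ker_of]
    exact h
  have h2 : commutator (Gam k) ≤ (Hs k).subgroupOf (Gam k) := by
    rw [commutator_def, Subgroup.commutator_le]
    intro a _ b _
    rw [Subgroup.mem_subgroupOf]
    have h3 : ((⁅a, b⁆ : Gam k) : SpecialLinearGroup (Fin 3) k[X]) =
        ⁅(a : SpecialLinearGroup (Fin 3) k[X]), (b : SpecialLinearGroup (Fin 3) k[X])⁆ :=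
      map_commutatorElement (Gam k).subtype a b
    rw [h3]
    exact commutator_mem _ _ a.2 b.2
  exact h2 h1

theorem emb3_mul {R : Type*} [CommRing R] (M N : Matrix (Fin 2) (Fin 2) R) :
    emb3 (M * N) = emb3 M * emb3 N := by
  ext i j
  fin_cases i <;> fin_cases j <;>
    simp [emb3, Matrix.mul_apply, Fin.sum_univ_three, Fin.sum_univ_two]

theorem emb3_U (v₁ v₂ s : k) :
    emb3 (U (C v₁) (C v₂) (C s * X)) = Tm ![v₁, v₂, 0] (s • ![v₂, v₁, 0]) := by
  ext1 i j
  fin_cases i <;> fin_cases j <;> simp [emb3, U, Tm] <;> ring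

end Trans

/-- E1: stable lifting of `α`.  (`k[X][Y]`; `evalRingHom 0`: `Y = 0`; `mapRingHom (evalRingHom 0)`:
`X = 0`; `evalRingHom X`: `Y = X`.) -/
theorem exists_beta {k : Type*} [CommRing k] [CharP k 2] (x y : k) :
    ∃ β : Matrix (Fin 3) (Fin 3) (Polynomial (Polynomial k)), β.det = 1 ∧
      β.map (evalRingHom 0) = 1 ∧ β.map (mapRingHom (evalRingHom 0)) = 1 ∧
      β.map (evalRingHom X) = emb3 (alpha x y) := by
  have orth : ∀ v₁ v₂ s : k, (s • ![v₂, v₁, 0]) ⬝ᵥ ![v₁, v₂, 0] = 0 := by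
    intro v₁ v₂ s
    rw [dotProduct, Fin.sum_univ_three]
    simp
    linear_combination CharTwo.add_self_eq_zero (s * v₁ * v₂)
  set G : k → k → k → Gam k := fun v₁ v₂ s => Tg ![v₁, v₂, 0] (s • ![v₂, v₁, 0]) (orth v₁ v₂ s)
    with hG
  set A : Gam k := G 1 1 (x * y) * G 1 y x * G 1 x y * G 1 (x * y) 1 *
    G 1 0 ((1 + x) * (1 + y)) * G 0 1 (x * y * ((1 + x) * (1 + y))) with hA
  have hAm : A.1.1 = emb3 (alpha x y) := by
    have e : ∀ v₁ v₂ s : k, (G v₁ v₂ s).1.1 = emb3 (U (C v₁) (C v₂) (C s * X)) := by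
      intro v₁ v₂ s
      rw [emb3_U]
      rfl
    show (G 1 1 (x * y)).1.1 * (G 1 y x).1.1 * (G 1 x y).1.1 * (G 1 (x * y) 1).1.1 *
      (G 1 0 ((1 + x) * (1 + y))).1.1 * (G 0 1 (x * y * ((1 + x) * (1 + y)))).1.1 = _
    rw [e, e, e, e, e, e]
    simp only [alpha, emb3_mul, C_1, C_0, one_mul]
  have hcl : Abelianization.of A = 1 := by
    have b := (tau_bi (k := k)).final x y
    have t : ∀ v₁ v₂ s : k, Additive.ofMul (Abelianization.of (G v₁ v₂ s)) =
        tau ![v₁, v₂, 0] (s • ![v₂, v₁, 0]) := by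
      intro v₁ v₂ s
      rw [tau_eq _ _ (orth v₁ v₂ s)]
    have h1 : Additive.ofMul (Abelianization.of A) = 0 := by
      rw [hA]
      simp only [map_mul, ofMul_mul, t]
      -- expand the final relation
      have hexp : ∀ s r : k, hh (tau (k := k)) ![1, 0, 0] ![0, 1, 0] s r =
          tau ![1, s, 0] (r • ![s, 1, 0]) + tau ![1, 0, 0] (r • ![0, 1, 0]) +
            tau ![0, 1, 0] ((r * s ^ 2) • ![1, 0, 0]) := by
        intro s r
        rw [hh]
        congr 2
        congr 1
        · ext i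
          fin_cases i <;> simp
        · congr 1
          ext i
          fin_cases i <;> simp
      rw [hexp, hexp, hexp, hexp] at b
      have o1 : ∀ r : k, (r • ![(0 : k), 1, 0]) ⬝ᵥ ![(1 : k), 0, 0] = 0 := by
        intro r
        simp [dotProduct, Fin.sum_univ_three]
      have o2 : ∀ r : k, (r • ![(1 : k), 0, 0]) ⬝ᵥ ![(0 : k), 1, 0] = 0 := by
        intro r
        simp [dotProduct, Fin.sum_univ_three]
      have a1 : tau ![(1 : k), 0, 0] (((1 + x) * (1 + y)) • ![(0 : k), 1, 0]) =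
          tau ![(1 : k), 0, 0] ((x * y) • ![(0 : k), 1, 0]) +
          tau ![(1 : k), 0, 0] (x • ![(0 : k), 1, 0]) +
          tau ![(1 : k), 0, 0] (y • ![(0 : k), 1, 0]) +
          tau ![(1 : k), 0, 0] ((1 : k) • ![(0 : k), 1, 0]) := by
        rw [← tau_bi.right _ _ _ (o1 _) (o1 _), ← add_smul,
          ← tau_bi.right _ _ _ (o1 _) (o1 _), ← add_smul,
          ← tau_bi.right _ _ _ (o1 _) (o1 _), ← add_smul]
        congr 2
        ring
      have a2 : tau ![(0 : k), 1, 0] ((x * y * ((1 + x) * (1 + y))) • ![(1 : k), 0, 0]) =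
          tau ![(0 : k), 1, 0] ((x * y * 1 ^ 2) • ![(1 : k), 0, 0]) +
          tau ![(0 : k), 1, 0] ((x * y ^ 2) • ![(1 : k), 0, 0]) +
          tau ![(0 : k), 1, 0] ((y * x ^ 2) • ![(1 : k), 0, 0]) +
          tau ![(0 : k), 1, 0] ((1 * (x * y) ^ 2) • ![(1 : k), 0, 0]) := by
        rw [← tau_bi.right _ _ _ (o2 _) (o2 _), ← add_smul,
          ← tau_bi.right _ _ _ (o2 _) (o2 _), ← add_smul,
          ← tau_bi.right _ _ _ (o2 _) (o2 _), ← add_smul]
        congr 2
        ring
      rw [a1, a2, ← b]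
      abel
    exact h1
  obtain ⟨β, ⟨h1, h2⟩, h3⟩ := mem_Hs_of A hcl
  refine ⟨β, β.2, ?_, ?_, ?_⟩
  · have h : SpecialLinearGroup.map (evalRingHom (0 : k[X])) β = 1 := h1
    exact congrArg Subtype.val h
  · have h : SpecialLinearGroup.map (mapRingHom (evalRingHom (0 : k))) β = 1 := h2
    exact congrArg Subtype.val h
  · have h := congrArg Subtype.val h3
    rw [← hAm]
    exact h

end Pool.Agent.Helper47.HR
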