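import Pool.Agent.Helper47.HR.Defs

set_option autoImplicit false

/-! Module G: Quillen patching for a row over `A[T]`, `A` a domain. -/

namespace Pool.Agent.Helper47.HR

open Polynomial Matrix

universe u

/-- `σ(T)⁻¹ σ(T+U)` -/
theorem hrg_tau {L : Type u} [CommRing L] [IsDomain L] (σ : Matrix (Fin 3) (Fin 3) L[X])
    (hσ : IsUnit σ.det) :
    ∃ τ τ' : Matrix (Fin 3) (Fin 3) L[X][X], τ.det = 1 ∧
      σ.map C * τ = σ.map (aeval (C X + X : L[X][X])) ∧ τ = 1 + (X : L[X][X]) • τ' := by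
  set φ : L[X] →ₐ[L] L[X][X] := aeval (C X + X : L[X][X]) with hφ
  obtain ⟨c, hc, hcd⟩ := Polynomial.isUnit_iff.1 hσ
  have h1 : σ⁻¹ * σ = 1 := Matrix.nonsing_inv_mul σ hσ
  have h2 : σ * σ⁻¹ = 1 := Matrix.mul_nonsing_inv σ hσ
  have hd : σ⁻¹.det * C c = 1 := by
    rw [hcd, ← Matrix.det_mul, h1, Matrix.det_one]
  set τ : Matrix (Fin 3) (Fin 3) L[X][X] := (σ⁻¹).map C * σ.map φ with hτ
  have e1 : (σ⁻¹).map (C : L[X] → L[X][X]) = (C : L[X] →+* L[X][X]).mapMatrix σ⁻¹ := rfl
  have e2 : σ.map φ = (φ : L[X] →+* L[X][X]).mapMatrix σ := rfl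
  have e3 : σ.map (C : L[X] → L[X][X]) = (C : L[X] →+* L[X][X]).mapMatrix σ := rfl
  have hdet : τ.det = 1 := by
    rw [hτ, Matrix.det_mul, e1, e2, ← RingHom.map_det, ← RingHom.map_det, ← hcd]
    have : (φ : L[X] →+* L[X][X]) (C c) = C (C c) := by
      change φ (C c) = C (C c)
      rw [hφ, aeval_C]
      rfl
    rw [this, ← RingHom.map_mul, hd, RingHom.map_one]
  have hmul : σ.map C * τ = σ.map φ := by
    rw [hτ, ← Matrix.mul_assoc, e1, e3, ← RingHom.map_mul, h2, RingHom.map_one, Matrix.one_mul]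
  have hev : (evalRingHom (0 : L[X])).mapMatrix τ = 1 := by
    rw [hτ, e1, e2, RingHom.map_mul]
    have f1 : (evalRingHom (0 : L[X])).mapMatrix ((C : L[X] →+* L[X][X]).mapMatrix σ⁻¹) = σ⁻¹ := by
      ext i j
      simp
    have f2 : (evalRingHom (0 : L[X])).mapMatrix ((φ : L[X] →+* L[X][X]).mapMatrix σ) = σ := by
      have : (evalRingHom (0 : L[X])).comp (φ : L[X] →+* L[X][X]) = RingHom.id _ := by
        apply Polynomial.ringHom_ext
        · intro a
          simp [hφ, Polynomial.algebraMap_apply]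
        · simp [hφ]
      ext1 i j
      exact congrFun (congrArg DFunLike.coe this) (σ i j)
    rw [f1, f2, h1]
  have hX : ∀ i j, ∃ q, τ i j - (1 : Matrix (Fin 3) (Fin 3) L[X][X]) i j = X * q := by
    intro i j
    have h3 := congrFun (congrFun hev i) j
    have h4 : eval 0 (τ i j) = (1 : Matrix (Fin 3) (Fin 3) L[X]) i j := h3
    have h5 : eval 0 ((1 : Matrix (Fin 3) (Fin 3) L[X][X]) i j) =
        (1 : Matrix (Fin 3) (Fin 3) L[X]) i j := by
      by_cases hij : i = j
      · subst hij; simp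
      · simp [hij]
    apply Polynomial.X_dvd_iff.2
    rw [coeff_zero_eq_eval_zero, eval_sub, h4, h5, sub_self]
  choose τ' hτ' using hX
  refine ⟨τ, Matrix.of τ', hdet, hmul, ?_⟩
  ext1 i j
  simp only [Matrix.add_apply, Matrix.smul_apply, Matrix.of_apply, smul_eq_mul]
  rw [← hτ' i j]
  ring

/-- clearing denominators in two-variable polynomials -/
theorem hrg_denom {A L : Type u} [CommRing A] [CommRing L] [Algebra A L] (M : Submonoid A)
    [IsLocalization M L] {ι : Type*} [Finite ι] (f : ι → L[X][X]) :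
    ∃ s ∈ M, ∃ g : ι → A[X][X], ∀ i, C (C (algebraMap A L s)) * f i =
      mapRingHom (mapRingHom (algebraMap A L)) (g i) := by
  let i1 : Algebra A[X] L[X] := Polynomial.algebra A L
  have i2 : IsLocalization (M.map C) L[X] := Polynomial.isLocalization M L
  let i3 : Algebra A[X][X] L[X][X] := Polynomial.algebra A[X] L[X]
  have i4 : IsLocalization ((M.map C).map C) L[X][X] := Polynomial.isLocalization (M.map C) L[X]
  obtain ⟨⟨b, b', ⟨s, hs, hsb⟩, hb'⟩, hb⟩ :=
    IsLocalization.exist_integer_multiples_of_finite ((M.map C).map C) f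
  choose g hg using hb
  refine ⟨s, hs, g, fun i => ?_⟩
  have h1 := hg i
  simp only at h1
  rw [Algebra.smul_def] at h1
  have h2 : ∀ p : A[X][X], algebraMap A[X][X] L[X][X] p =
      mapRingHom (mapRingHom (algebraMap A L)) p := fun p => rfl
  rw [h2, h2] at h1
  rw [h1, ← hb', ← hsb]
  simp

/-- the universal matrix -/
theorem hrg_universal {A L : Type u} [CommRing A] [CommRing L] [IsDomain L] [Algebra A L]
    (M : Submonoid A) [IsLocalization M L] (hinj : Function.Injective (algebraMap A L))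
    (v : Fin 3 → A[X]) (σ : Matrix (Fin 3) (Fin 3) L[X]) (hσ : IsUnit σ.det)
    (hv : ∀ j, σ 2 j = (v j).map (algebraMap A L)) :
    ∃ s ∈ M, ∃ ρ : Matrix (Fin 3) (Fin 3) A[X][X], ρ.det = 1 ∧
      ∀ j, ∑ i, C (v i) * ρ i j = aeval (C X + C (C s) * X : A[X][X]) (v j) := by
  obtain ⟨τ, τ', hdet, hmul, hτ⟩ := hrg_tau σ hσ
  obtain ⟨s, hs, g, hg⟩ := hrg_denom (A := A) M (fun p : Fin 3 × Fin 3 => τ' p.1 p.2)
  set ι : A[X][X] →+* L[X][X] := mapRingHom (mapRingHom (algebraMap A L)) with hι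
  have hιinj : Function.Injective ι :=
    Polynomial.map_injective _ (Polynomial.map_injective _ hinj)
  set φA : A[X][X] →+* A[X][X] := eval₂RingHom C (C (C s) * X) with hφA
  set φL : L[X][X] →+* L[X][X] := eval₂RingHom C (C (C (algebraMap A L s)) * X) with hφL
  have comm : ∀ p, ι (φA p) = φL (ι p) := by
    have : ι.comp φA = φL.comp ι := by
      apply Polynomial.ringHom_ext
      · intro a
        simp [hι, hφA, hφL]
      · simp [hι, hφA, hφL]
    intro p
    exact congrFun (congrArg DFunLike.coe this) p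
  set ρ : Matrix (Fin 3) (Fin 3) A[X][X] := Matrix.of fun i j =>
    (1 : Matrix (Fin 3) (Fin 3) A[X][X]) i j + X * φA (g (i, j)) with hρ
  have hone : ∀ i j, ι ((1 : Matrix (Fin 3) (Fin 3) A[X][X]) i j) =
      (1 : Matrix (Fin 3) (Fin 3) L[X][X]) i j := by
    intro i j
    by_cases hij : i = j
    · subst hij; simp
    · simp [hij]
  have hone' : ∀ i j, φL ((1 : Matrix (Fin 3) (Fin 3) L[X][X]) i j) =
      (1 : Matrix (Fin 3) (Fin 3) L[X][X]) i j := by
    intro i j
    by_cases hij : i = j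
    · subst hij; simp
    · simp [hij]
  have hφLX : φL X = C (C (algebraMap A L s)) * X := by simp [hφL]
  have hφLC : ∀ p, φL (C p) = C p := by intro p; simp [hφL]
  have hent : ∀ i j, ι (ρ i j) = φL (τ i j) := by
    intro i j
    have h1 : τ i j = (1 : Matrix (Fin 3) (Fin 3) L[X][X]) i j + X * τ' i j := by
      rw [hτ]
      simp only [Matrix.add_apply, Matrix.smul_apply, smul_eq_mul]
    have h2 := hg (i, j)
    simp only at h2
    rw [h1, hρ, Matrix.of_apply, map_add, map_add, hone, hone', map_mul, comm, ← h2, map_mul,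
      map_mul, hφLC, hφLX]
    have : ι X = X := by simp [hι]
    rw [this]
    ring
  refine ⟨s, hs, ρ, ?_, ?_⟩
  · apply hιinj
    rw [map_one, RingHom.map_det]
    have : ι.mapMatrix ρ = φL.mapMatrix τ := by
      ext1 i j
      exact hent i j
    rw [this, ← RingHom.map_det, hdet, map_one]
  · intro j
    apply hιinj
    rw [map_sum]
    have h3 : ∀ i, ι (C (v i) * ρ i j) = φL (C (σ 2 i) * τ i j) := by
      intro i
      rw [map_mul, map_mul, hent, hφLC, hv]
      congr 1
      simp [hι]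
    rw [Finset.sum_congr rfl fun i _ => h3 i, ← map_sum]
    have h4 : ∑ i, C (σ 2 i) * τ i j = aeval (C X + X : L[X][X]) (σ 2 j) := by
      have := congrFun (congrFun hmul 2) j
      rw [Matrix.mul_apply] at this
      exact this
    rw [h4, hv]
    have h5 : (φL.comp (aeval (C X + X : L[X][X]) : L[X] →ₐ[L] L[X][X]).toRingHom).comp
        (mapRingHom (algebraMap A L)) =
        ι.comp (aeval (C X + C (C s) * X : A[X][X]) : A[X] →ₐ[A] A[X][X]).toRingHom := by
      apply Polynomial.ringHom_ext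
      · intro a
        simp [hι, hφL, Polynomial.algebraMap_apply]
      · simp [hι, hφL]
    exact congrFun (congrArg DFunLike.coe h5) (v j)

/-- the set of all `r` such that `v(t + r u)` is equivalent to `v(t)` over all algebras -/
def hrgJ {A : Type u} [CommRing A] (v : Fin 3 → A[X]) (r : A) : Prop :=
  ∀ (B : Type u) [CommRing B] [Algebra A B] (t u : B), ∃ ρ : Matrix (Fin 3) (Fin 3) B,
    IsUnit ρ.det ∧ Matrix.vecMul (fun i => aeval t (v i)) ρ =
      fun j => aeval (t + algebraMap A B r * u) (v j)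

theorem hrgJ_zero {A : Type u} [CommRing A] (v : Fin 3 → A[X]) : hrgJ v 0 := by
  intro B _ _ t u
  refine ⟨1, by simp, ?_⟩
  rw [Matrix.vecMul_one]
  simp

theorem hrgJ_add {A : Type u} [CommRing A] (v : Fin 3 → A[X]) {r r' : A} (h : hrgJ v r)
    (h' : hrgJ v r') : hrgJ v (r + r') := by
  intro B _ _ t u
  obtain ⟨ρ, hρ, h1⟩ := h B t u
  obtain ⟨ρ', hρ', h2⟩ := h' B (t + algebraMap A B r * u) u
  refine ⟨ρ * ρ', ?_, ?_⟩
  · rw [Matrix.det_mul]; exact hρ.mul hρ'
  · rw [← Matrix.vecMul_vecMul, h1, h2]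
    funext j
    congr 2
    rw [map_add]; ring

theorem hrgJ_smul {A : Type u} [CommRing A] (v : Fin 3 → A[X]) {r : A} (a : A) (h : hrgJ v r) :
    hrgJ v (a * r) := by
  intro B _ _ t u
  obtain ⟨ρ, hρ, h1⟩ := h B t (algebraMap A B a * u)
  refine ⟨ρ, hρ, ?_⟩
  rw [h1]
  funext j
  congr 2
  rw [map_mul]; ring

theorem hrgJ_of_universal {A : Type u} [CommRing A] (v : Fin 3 → A[X]) {s : A}
    (ρ : Matrix (Fin 3) (Fin 3) A[X][X]) (hρ : ρ.det = 1)
    (h : ∀ j, ∑ i, C (v i) * ρ i j = aeval (C X + C (C s) * X : A[X][X]) (v j)) :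
    hrgJ v s := by
  intro B _ _ t u
  set φ : A[X][X] →+* B := eval₂RingHom (aeval t : A[X] →ₐ[A] B).toRingHom u with hφ
  refine ⟨φ.mapMatrix ρ, ?_, ?_⟩
  · rw [← RingHom.map_det, hρ, map_one]
    exact isUnit_one
  · funext j
    have h1 := congrArg φ (h j)
    rw [map_sum] at h1
    have h2 : φ.comp (aeval (C X + C (C s) * X : A[X][X]) : A[X] →ₐ[A] A[X][X]).toRingHom =
        (aeval (t + algebraMap A B s * u) : A[X] →ₐ[A] B).toRingHom := by
      apply Polynomial.ringHom_ext
      · intro a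
        simp [hφ, Polynomial.algebraMap_apply]
      · simp [hφ]
    have h3 := congrFun (congrArg DFunLike.coe h2) (v j)
    have h4 : φ (aeval (C X + C (C s) * X : A[X][X]) (v j)) =
      aeval (t + algebraMap A B s * u) (v j) := h3
    rw [← h4, ← h1]
    change ∑ i, (aeval t (v i)) * (φ.mapMatrix ρ) i j = _
    refine Finset.sum_congr rfl fun i _ => ?_
    rw [map_mul]
    congr 1
    simp [hφ]

/-- G1: Quillen patching for a row over `A[T]`, `A` a domain -/
theorem patching {A : Type*} [CommRing A] [IsDomain A] (v : Fin 3 → A[X])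
    (h : ∀ (P : Ideal A) [P.IsPrime], P.IsMaximal →
      ∃ σ : Matrix (Fin 3) (Fin 3) (Localization.AtPrime P)[X], IsUnit σ.det ∧
        ∀ j, σ 2 j = (v j).map (algebraMap A (Localization.AtPrime P))) :
    ∃ τ : Matrix (Fin 3) (Fin 3) A, IsUnit τ.det ∧
      ∀ j, ∑ i, (v i).eval 0 * τ i j = (v j).eval 1 := by
  let J : Ideal A :=
    { carrier := {r | hrgJ v r}
      add_mem' := fun h h' => hrgJ_add v h h'
      zero_mem' := hrgJ_zero v
      smul_mem' := fun a _ h => hrgJ_smul v a h }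
  have hJ : J = ⊤ := by
    by_contra hne
    obtain ⟨P, hP, hJP⟩ := Ideal.exists_le_maximal J hne
    have hprime : P.IsPrime := hP.isPrime
    obtain ⟨σ, hσ, hv⟩ := h P hP
    have hle : P.primeCompl ≤ nonZeroDivisors A := by
      intro x hx
      rw [mem_nonZeroDivisors_iff_ne_zero]
      rintro rfl
      exact hx P.zero_mem
    have hinj : Function.Injective (algebraMap A (Localization.AtPrime P)) :=
      IsLocalization.injective _ hle
    have hdom : IsDomain (Localization.AtPrime P) :=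
      IsLocalization.isDomain_localization hle
    obtain ⟨s, hs, ρ, hρ, hrow⟩ := hrg_universal P.primeCompl hinj v σ hσ hv
    exact hs (hJP (show s ∈ J from hrgJ_of_universal v ρ hρ hrow))
  have h1 : (1 : A) ∈ J := by rw [hJ]; trivial
  obtain ⟨ρ, hρ, hrow⟩ := h1 A 0 1
  refine ⟨ρ, hρ, fun j => ?_⟩
  have := congrFun hrow j
  simpa [Matrix.vecMul, dotProduct, aeval_def, eval₂_eq_eval_map] using this

end Pool.Agent.Helper47.HR
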