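import Pool.Agent.Helper47.HR.C
import Pool.Agent.Helper69.HR.B

set_option autoImplicit false

namespace Pool.Agent.Helper47.HR

open Polynomial

section field

variable {K : Type*} [Field K]

theorem rev_monic {A : K[X]} (hA : A.coeff 0 = 1) : A.reverse.Monic := by
  have h : A.reverse.leadingCoeff = A.trailingCoeff := reverse_leadingCoeff A
  have h2 : A.natTrailingDegree = 0 := by
    apply natTrailingDegree_eq_zero_of_constantCoeff_ne_zero
    simp [constantCoeff_apply, hA]
  rw [Monic, h, trailingCoeff, h2, hA]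

theorem rev_natDegree {A : K[X]} (hA : A.coeff 0 = 1) : A.reverse.natDegree = A.natDegree := by
  have h2 : A.natTrailingDegree = 0 := by
    apply natTrailingDegree_eq_zero_of_constantCoeff_ne_zero
    simp [constantCoeff_apply, hA]
  rw [reverse_natDegree, h2, Nat.sub_zero]

/-- the functional: coefficient of the top power -/
noncomputable def s0 {p : K[X]} (hp : p.Monic) : AdjoinRoot p →ₗ[K] K :=
  (lcoeff K (p.natDegree - 1)).comp (AdjoinRoot.modByMonicHom hp)

theorem s0_mk {p : K[X]} (hp : p.Monic) (f : K[X]) :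
    s0 hp (AdjoinRoot.mk p f) = Rs f p := by
  simp [s0, Rs, AdjoinRoot.modByMonicHom_mk, modByMonic_eq_mod f hp, hp.leadingCoeff]

/-- the inverse of the root -/
noncomputable def wi (p : K[X]) : AdjoinRoot p :=
  AdjoinRoot.mk p (C (p.coeff 0)⁻¹ * p.divX)

theorem two_eq_zero (R : Type*) [CommRing R] [CharP R 2] : (2 : R) = 0 := by
  exact_mod_cast CharP.cast_eq_zero R 2

theorem ar_two [CharP K 2] (p : K[X]) : (2 : AdjoinRoot p) = 0 := by
  have h : (2 : K[X]) = 0 := two_eq_zero _
  have h2 := congrArg (AdjoinRoot.mk p) h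
  rw [map_zero, map_ofNat] at h2
  exact h2

theorem w_mul_wi [CharP K 2] {p : K[X]} (h : p.coeff 0 ≠ 0) :
    AdjoinRoot.root p * wi p = 1 := by
  have h1 : AdjoinRoot.mk p (X * (C (p.coeff 0)⁻¹ * p.divX)) = 1 := by
    have h2 : X * (C (p.coeff 0)⁻¹ * p.divX) = C (p.coeff 0)⁻¹ * p - 1 := by
      have h3 := divX_mul_X_add p
      have h4 : C (p.coeff 0)⁻¹ * C (p.coeff 0) = (1 : K[X]) := by
        rw [← C_mul, inv_mul_cancel₀ h, C_1]
      calc X * (C (p.coeff 0)⁻¹ * p.divX)
          = C (p.coeff 0)⁻¹ * (p.divX * X + C (p.coeff 0)) - C (p.coeff 0)⁻¹ * C (p.coeff 0) := by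
            ring
        _ = _ := by rw [h3, h4]
    rw [h2, map_sub, map_mul, AdjoinRoot.mk_self, mul_zero, zero_sub, map_one]
    have := ar_two p
    linear_combination -this
  rw [map_mul, AdjoinRoot.mk_X] at h1
  exact h1

theorem s0_mk_lt {p : K[X]} (hp : p.Monic) {f : K[X]} (h : f.natDegree < p.natDegree) :
    s0 hp (AdjoinRoot.mk p f) = f.coeff (p.natDegree - 1) := by
  rw [s0, LinearMap.comp_apply, AdjoinRoot.modByMonicHom_mk, lcoeff_apply,
    (modByMonic_eq_self_iff hp).mpr]
  exact degree_lt_degree h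

/-- the algebra map `f ↦ f(w⁻¹)` -/
noncomputable def ev (p : K[X]) : K[X] →ₐ[K] AdjoinRoot p := aeval (wi p)

theorem ev_X (p : K[X]) : ev p X = wi p := by simp [ev]

theorem ev_self [CharP K 2] {A : K[X]} (h0 : A ≠ 0) :
    ev A.reverse A = 0 := by
  have hp0 : A.reverse.coeff 0 ≠ 0 := by
    rw [coeff_zero_reverse]
    exact leadingCoeff_ne_zero.mpr h0
  have hw := w_mul_wi hp0
  letI : Invertible (wi A.reverse) := ⟨AdjoinRoot.root A.reverse, hw, by rw [mul_comm]; exact hw⟩
  have h := eval₂_reverse_mul_pow (algebraMap K (AdjoinRoot A.reverse)) (wi A.reverse) A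
  have h2 : eval₂ (algebraMap K (AdjoinRoot A.reverse)) (⅟(wi A.reverse)) A.reverse = 0 := by
    change eval₂ (AdjoinRoot.of A.reverse) (AdjoinRoot.root A.reverse) A.reverse = 0
    exact AdjoinRoot.eval₂_root _
  rw [h2, zero_mul] at h
  rw [ev, aeval_def]
  exact h.symm

theorem key [CharP K 2] {A : K[X]} (hA : A.coeff 0 = 1) (hn : 1 ≤ A.natDegree) (f : K[X]) :
    s0 (rev_monic hA) (AdjoinRoot.root A.reverse ^ A.natDegree * wi A.reverse ^ 2
      * ev A.reverse f) = Rs f A := by
  have h0 : A ≠ 0 := by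
    rintro rfl
    simp at hA
  have hp0 : A.reverse.coeff 0 ≠ 0 := by
    rw [coeff_zero_reverse]
    exact leadingCoeff_ne_zero.mpr h0
  have hw := w_mul_wi hp0
  set p := A.reverse with hp
  set w := AdjoinRoot.root p with hwdef
  set v := wi p with hvdef
  set n := A.natDegree with hndef
  have hpn : p.natDegree = n := rev_natDegree hA
  have hmono : ∀ j, j < n → s0 (rev_monic hA) (w ^ n * v ^ 2 * ev p (X ^ j))
      = if j = n - 1 then A.leadingCoeff⁻¹ else 0 := by
    intro j hj
    rw [map_pow, ev_X]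
    by_cases hj1 : j = n - 1
    · rw [if_pos hj1]
      have h1 : w ^ n * v ^ 2 * v ^ j = v := by
        calc w ^ n * v ^ 2 * v ^ j = w ^ n * v ^ (j + 1) * v := by ring
          _ = (w * v) ^ n * v := by
            have : j + 1 = n := by omega
            rw [this, mul_pow]
          _ = v := by rw [hw, one_pow, one_mul]
      have h2 : (C (p.coeff 0)⁻¹ * p.divX).natDegree < p.natDegree := by
        refine lt_of_le_of_lt (natDegree_C_mul_le _ _) ?_
        rw [natDegree_divX_eq_natDegree_tsub_one]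
        omega
      rw [h1, hvdef, wi, s0_mk_lt (rev_monic hA) h2, coeff_C_mul, coeff_divX,
        show p.natDegree - 1 + 1 = p.natDegree by omega]
      have h3 : p.coeff p.natDegree = 1 := rev_monic hA
      rw [h3, mul_one, hp, coeff_zero_reverse]
    · rw [if_neg hj1]
      have h1 : w ^ n * v ^ 2 * v ^ j = w ^ (n - 2 - j) := by
        calc w ^ n * v ^ 2 * v ^ j = w ^ (n - 2 - j) * ((w * v) ^ (j + 2)) := by
              rw [mul_pow, ← mul_assoc, ← pow_add, show n - 2 - j + (j + 2) = n by omega]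
              ring
          _ = _ := by rw [hw, one_pow, mul_one]
      have h2 : w ^ (n - 2 - j) = AdjoinRoot.mk p (X ^ (n - 2 - j)) := by
        rw [map_pow, AdjoinRoot.mk_X]
      rw [h1, h2, s0_mk_lt (rev_monic hA), coeff_X_pow, if_neg]
      · have hpn2 : A.reverse.natDegree = n := hpn
        omega
      · rw [natDegree_X_pow]
        have hpn2 : A.reverse.natDegree = n := hpn
        omega
  have hsum : ∀ g : K[X], g.natDegree < n → s0 (rev_monic hA) (w ^ n * v ^ 2 * ev p g)
      = g.coeff (n - 1) / A.leadingCoeff := by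
    intro g hg
    conv_lhs => rw [g.as_sum_range_C_mul_X_pow' (n := n) hg]
    rw [map_sum, Finset.mul_sum, map_sum]
    have : ∀ i ∈ Finset.range n, s0 (rev_monic hA) (w ^ n * v ^ 2 * ev p (C (g.coeff i) * X ^ i))
        = if i = n - 1 then g.coeff (n - 1) / A.leadingCoeff else 0 := by
      intro i hi
      have h1 : w ^ n * v ^ 2 * ev p (C (g.coeff i) * X ^ i)
          = g.coeff i • (w ^ n * v ^ 2 * ev p (X ^ i)) := by
        rw [map_mul, Algebra.smul_def]
        have : ev p (C (g.coeff i)) = algebraMap K (AdjoinRoot p) (g.coeff i) := by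
          simp [ev]
        rw [this]
        ring
      rw [h1, map_smul, hmono i (Finset.mem_range.mp hi)]
      split_ifs with h
      · subst h
        rw [smul_eq_mul, div_eq_mul_inv]
      · simp
    rw [Finset.sum_congr rfl this, Finset.sum_ite_eq' (Finset.range n) (n - 1)]
    rw [if_pos (Finset.mem_range.mpr (by omega))]
  have hred : ev p f = ev p (f % A) := by
    conv_lhs => rw [← EuclideanDomain.div_add_mod f A]
    rw [map_add, map_mul, hp, ev_self h0, zero_mul, zero_add]
  rw [hred, hsum]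
  · rw [Rs]
  · exact natDegree_mod_lt f (by omega)

theorem dualPair_of_orth {V : Type*} [CommRing V] [Algebra K V] (s : V →ₗ[K] K) {n : ℕ}
    (hn0 : 1 ≤ n) (hfin : Module.finrank K V = n) {e e' : Fin n → V}
    (h : ∀ i j, s (e i * e' j) = if i = j then 1 else 0) : DualPair s e e' := by
  have hcoef : ∀ (c : Fin n → K) (j : Fin n), s ((∑ i, c i • e i) * e' j) = c j := by
    intro c j
    rw [Finset.sum_mul, map_sum]
    have : ∀ i ∈ Finset.univ, s (c i • e i * e' j) = if i = j then c i else 0 := by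
      intro i _
      rw [smul_mul_assoc, map_smul, h i j]
      split_ifs <;> simp
    rw [Finset.sum_congr rfl this]
    simp
  have hli : LinearIndependent K e := by
    rw [Fintype.linearIndependent_iff]
    intro c hc j
    have := hcoef c j
    rw [hc, zero_mul, map_zero] at this
    exact this.symm
  refine ⟨h, fun x => ?_⟩
  have : Nonempty (Fin n) := ⟨⟨0, hn0⟩⟩
  let b : Module.Basis (Fin n) K V := basisOfLinearIndependentOfCardEqFinrank hli
    (by rw [Fintype.card_fin, hfin])
  have hb : ⇑b = e := coe_basisOfLinearIndependentOfCardEqFinrank hli _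
  have hx : x = ∑ i, b.repr x i • e i := by
    conv_lhs => rw [← b.sum_repr x]
    rw [hb]
  have hc : ∀ j, s (x * e' j) = b.repr x j := by
    intro j
    conv_lhs => rw [hx]
    exact hcoef _ j
  conv_lhs => rw [hx]
  exact Finset.sum_congr rfl fun i _ => by rw [hc]

theorem finrank_ar {p : K[X]} (hp : p.Monic) : Module.finrank K (AdjoinRoot p) = p.natDegree :=
  (AdjoinRoot.powerBasis hp.ne_zero).finrank

/-- the dual pair of powers of `w` -/
theorem dualPair_w {p : K[X]} (hp : p.Monic) {n : ℕ} (hn : p.natDegree = n) (hn1 : 1 ≤ n) :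
    DualPair (s0 hp) (fun i : Fin n => AdjoinRoot.root p ^ (i : ℕ))
      (fun i : Fin n => AdjoinRoot.mk p (divX^[(i : ℕ) + 1] p)) := by
  apply dualPair_of_orth _ hn1 (by rw [finrank_ar hp, hn])
  intro i j
  have h1 : AdjoinRoot.root p ^ (i : ℕ) * AdjoinRoot.mk p (divX^[(j : ℕ) + 1] p)
      = AdjoinRoot.mk p (X ^ (i : ℕ) * divX^[(j : ℕ) + 1] p) := by
    rw [map_mul, map_pow, AdjoinRoot.mk_X]
  rw [h1, s0_mk, Rs_dual p (by omega) (by omega)]
  simp only [Fin.ext_iff]

/-- the dual pair of powers of `w⁻¹` -/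
theorem dualPair_v [CharP K 2] {A : K[X]} (hA : A.coeff 0 = 1) {n : ℕ} (hn : A.natDegree = n)
    (hn1 : 1 ≤ n) :
    DualPair (s0 (rev_monic hA)) (fun i : Fin n => wi A.reverse ^ (i : ℕ))
      (fun i : Fin n => AdjoinRoot.root A.reverse ^ A.natDegree * wi A.reverse ^ 2
        * ev A.reverse (divX^[(i : ℕ) + 1] A)) := by
  apply dualPair_of_orth _ hn1 (by rw [finrank_ar (rev_monic hA), rev_natDegree hA, hn])
  intro i j
  have h1 : wi A.reverse ^ (i : ℕ) * (AdjoinRoot.root A.reverse ^ A.natDegree * wi A.reverse ^ 2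
        * ev A.reverse (divX^[(j : ℕ) + 1] A))
      = AdjoinRoot.root A.reverse ^ A.natDegree * wi A.reverse ^ 2
        * ev A.reverse (X ^ (i : ℕ) * divX^[(j : ℕ) + 1] A) := by
    rw [map_mul, map_pow, ev_X]
    ring
  rw [h1, key hA (by omega), Rs_dual A (by omega) (by omega)]
  simp only [Fin.ext_iff]

/-- the pairing sum in the basis of powers of `w⁻¹` is `Xi` -/
theorem PS_v [CharP K 2] (D : K →+ K) (hD : ∀ r x, D (r ^ 2 * x) = r ^ 2 * D x)
    {A : K[X]} (hA : A.coeff 0 = 1) {n : ℕ} (hn : A.natDegree = n) (hn1 : 1 ≤ n) (B C' : K[X]) :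
    PS (s0 (rev_monic hA)) D
      (AdjoinRoot.root A.reverse ^ A.natDegree * wi A.reverse ^ 2 * ev A.reverse C'.divX)
      (AdjoinRoot.root A.reverse ^ 2 * wi A.reverse ^ A.natDegree * ev A.reverse B)
      (fun i : Fin n => wi A.reverse ^ (i : ℕ))
      (fun i : Fin n => AdjoinRoot.root A.reverse ^ A.natDegree * wi A.reverse ^ 2
        * ev A.reverse (divX^[(i : ℕ) + 1] A)) = Xi D A B C' := by
  have h0 : A ≠ 0 := by
    rintro rfl
    simp at hA
  have hp0 : A.reverse.coeff 0 ≠ 0 := by
    rw [coeff_zero_reverse]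
    exact leadingCoeff_ne_zero.mpr h0
  have hw := w_mul_wi hp0
  rw [← closed_formula D hD A B C' h0, hn, ← Fin.sum_univ_eq_sum_range
    (fun l => Rs (C'.divX * X ^ (2 * l)) A * D (Rs (B * (divX^[l + 1] A) ^ 2) A)) n, PS]
  apply Finset.sum_congr rfl
  intro i _
  subst hn
  rw [← key hA hn1, ← key hA hn1]
  refine congrArg₂ (· * ·) (congrArg _ ?_) (congrArg _ (congrArg _ ?_))
  · rw [map_mul, map_pow, ev_X]
    ring
  · rw [map_mul, map_pow]
    set w := AdjoinRoot.root A.reverse
    set v := wi A.reverse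
    calc w ^ 2 * v ^ A.natDegree * ev A.reverse B *
          (w ^ A.natDegree * v ^ 2 * ev A.reverse (divX^[↑i + 1] A)) ^ 2
        = (w * v) ^ (A.natDegree + 2) * (w ^ A.natDegree * v ^ 2) *
            (ev A.reverse B * ev A.reverse (divX^[↑i + 1] A) ^ 2) := by
          rw [mul_pow w v]
          ring
      _ = _ := by rw [hw, one_pow, one_mul]

end field


section main

variable {S K : Type*} [CommRing S] [Field K] [Algebra S K]

/-- image of `S[w]` -/
noncomputable def V0 (S : Type*) {K : Type*} [CommRing S] [Field K] [Algebra S K] (p : K[X]) :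
    Subalgebra S (AdjoinRoot p) :=
  (aeval (R := S) (AdjoinRoot.root p)).range

theorem aeval_root_eq (p : K[X]) (f : S[X]) :
    aeval (R := S) (AdjoinRoot.root p) f = AdjoinRoot.mk p (f.map (algebraMap S K)) := by
  rw [← AdjoinRoot.aeval_eq, aeval_map_algebraMap]

theorem mem_V0_mk (p : K[X]) (f : S[X]) :
    AdjoinRoot.mk p (f.map (algebraMap S K)) ∈ V0 S p :=
  ⟨f, aeval_root_eq p f⟩

theorem root_mem_V0 (p : K[X]) : AdjoinRoot.root p ∈ V0 S p :=
  ⟨X, by simp⟩

theorem s0_mem {pS : S[X]} (hpS : pS.Monic) {p : K[X]} (hp : p.Monic)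
    (hpp : pS.map (algebraMap S K) = p) (x : AdjoinRoot p) (hx : x ∈ V0 S p) :
    ∃ y : S, s0 hp x = algebraMap S K y := by
  obtain ⟨f, rfl⟩ := hx
  change ∃ y : S, s0 hp (aeval (R := S) (AdjoinRoot.root p) f) = algebraMap S K y
  rw [aeval_root_eq]
  refine ⟨(f %ₘ pS).coeff (p.natDegree - 1), ?_⟩
  rw [s0, LinearMap.comp_apply, AdjoinRoot.modByMonicHom_mk, lcoeff_apply]
  subst hpp
  rw [← map_modByMonic _ hpS, coeff_map]

theorem divX_map (f : S[X]) : (f.map (algebraMap S K)).divX = f.divX.map (algebraMap S K) := by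
  ext i
  simp [coeff_divX, coeff_map]

theorem divX_iter_map (f : S[X]) (l : ℕ) :
    divX^[l] (f.map (algebraMap S K)) = (divX^[l] f).map (algebraMap S K) := by
  induction l generalizing f with
  | zero => rfl
  | succ l ih => rw [Function.iterate_succ_apply, Function.iterate_succ_apply, divX_map, ih]

theorem clear_mem {p : K[X]} {v : AdjoinRoot p} (hv : AdjoinRoot.root p * v = 1) (f : S[X])
    {N k : ℕ} (h : f.natDegree + k ≤ N) :
    AdjoinRoot.root p ^ N * v ^ k * aeval (R := K) v (f.map (algebraMap S K)) ∈ V0 S p := by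
  rw [aeval_map_algebraMap, aeval_eq_sum_range, Finset.mul_sum]
  apply Subalgebra.sum_mem
  intro i hi
  rw [Finset.mem_range] at hi
  have : AdjoinRoot.root p ^ N * v ^ k * (f.coeff i • v ^ i)
      = f.coeff i • AdjoinRoot.root p ^ (N - k - i) := by
    rw [mul_smul_comm]
    congr 1
    calc AdjoinRoot.root p ^ N * v ^ k * v ^ i
        = AdjoinRoot.root p ^ (N - k - i) * (AdjoinRoot.root p * v) ^ (k + i) := by
          rw [mul_pow, ← mul_assoc, ← pow_add, show N - k - i + (k + i) = N by omega]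
          ring
      _ = _ := by rw [hv, one_pow, mul_one]
  rw [this]
  exact Subalgebra.smul_mem _ (Subalgebra.pow_mem _ (root_mem_V0 p) _) _

theorem Xi_mod' [IsDomain S] [IsPrincipalIdealRing S]
    [CharP K 2] [IsFractionRing S K]
    (D : K →+ K) (hD : ∀ r x, D (r ^ 2 * x) = r ^ 2 * D x)
    (hDS : ∀ x : S, ∃ y : S, D (algebraMap S K x) = algebraMap S K y)
    (ϖ : S) (hϖ : Prime ϖ)
    (hDϖ : ∀ x : K, D (algebraMap S K ϖ * x) = algebraMap S K ϖ * D x)
    (a b c d : S[X]) (hdet : a * d - b * c = 1) (ha : a.coeff 0 = 1)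
    (hc : c.coeff 0 = 0) (hmod : ∀ i, i ≠ 0 → ϖ ∣ a.coeff i) :
    ∃ y : S, Xi D (a.map (algebraMap S K)) (b.map (algebraMap S K)) (c.map (algebraMap S K))
      = algebraMap S K (ϖ * y) := by
  have hinj : Function.Injective (algebraMap S K) := IsFractionRing.injective S K
  set A := a.map (algebraMap S K) with hAdef
  have hA : A.coeff 0 = 1 := by rw [hAdef, coeff_map, ha, map_one]
  have hA0 : A ≠ 0 := by
    rintro h
    rw [h] at hA
    simp at hA
  rcases Nat.eq_zero_or_pos A.natDegree with hn0 | hn1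
  · -- trivial case
    refine ⟨0, ?_⟩
    have hA1 : A = 1 := by
      rw [eq_C_of_natDegree_eq_zero hn0, hA, C_1]
    rw [Xi, hA1, Rs, EuclideanDomain.mod_one]
    simp
  have hn1' : 1 ≤ A.natDegree := hn1
  have hrev : a.reverse.map (algebraMap S K) = A.reverse := by
    rw [reverse, ← reflect_map, hAdef, reverse, natDegree_map_eq_of_injective hinj]
  have hmonS : a.reverse.Monic := by
    have h1 : (a.reverse.map (algebraMap S K)).Monic := by
      rw [hrev]
      exact rev_monic hA
    exact monic_of_injective hinj h1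
  have hp0 : A.reverse.coeff 0 ≠ 0 := by
    rw [coeff_zero_reverse]
    exact leadingCoeff_ne_zero.mpr hA0
  have hw := w_mul_wi hp0
  set p := A.reverse with hp
  have hpm : p.Monic := rev_monic hA
  have hpn : p.natDegree = A.natDegree := rev_natDegree hA
  set w := AdjoinRoot.root p with hwdef
  set v := wi p with hvdef
  set n := A.natDegree with hn
  set B := b.map (algebraMap S K) with hB
  set C' := c.map (algebraMap S K) with hC'
  have hdetK : A * d.map (algebraMap S K) - B * C' = 1 := by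
    rw [hAdef, hB, hC', ← Polynomial.map_mul, ← Polynomial.map_mul, ← Polynomial.map_sub, hdet,
      Polynomial.map_one]
  have hC0 : C'.coeff 0 = 0 := by rw [hC', coeff_map, hc, map_zero]
  have hCX : C'.divX * X = C' := by
    have := divX_mul_X_add C'
    rwa [hC0, C_0, add_zero] at this
  -- product of η and η'
  have hηη : (w ^ n * v ^ 2 * ev p C'.divX) * (w ^ 2 * v ^ n * ev p B) = w := by
    have h1 : ev p C'.divX * v = ev p C' := by
      conv_rhs => rw [← hCX]
      rw [map_mul, ev_X]
    have h2 : ev p A = 0 := ev_self hA0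
    have h3 : ev p B * ev p C' = -1 := by
      have h4 := congrArg (ev p) hdetK
      rw [map_sub, map_mul, map_mul, h2, zero_mul, map_one] at h4
      linear_combination -h4
    have h5 : ev p C'.divX = w * ev p C' := by
      calc ev p C'.divX = ev p C'.divX * (w * v) := by rw [hw, mul_one]
        _ = w * (ev p C'.divX * v) := by ring
        _ = _ := by rw [h1]
    calc (w ^ n * v ^ 2 * ev p C'.divX) * (w ^ 2 * v ^ n * ev p B)
        = (w * v) ^ (n + 2) * (ev p C'.divX * ev p B) := by rw [mul_pow]; ring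
      _ = w * (ev p B * ev p C') := by rw [hw, h5]; ring
      _ = w := by
        rw [h3]
        have := ar_two p
        linear_combination (-w) * this
  -- lattice conditions
  have hcl1 : w ^ (2 * (b.natDegree + c.divX.natDegree + n + 2)) *
      (w ^ n * v ^ 2 * ev p C'.divX) ∈ V0 S p := by
    have h1 := clear_mem (S := S) hw c.divX
      (N := 2 * (b.natDegree + c.divX.natDegree + n + 2) + n) (k := 2) (by omega)
    have h2 : C'.divX = c.divX.map (algebraMap S K) := by rw [hC', divX_map]
    rw [h2]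
    convert h1 using 1
    rw [pow_add, ev]
    ring
  have hcl2 : w ^ (2 * (b.natDegree + c.divX.natDegree + n + 2)) *
      (w ^ 2 * v ^ n * ev p B) ∈ V0 S p := by
    have h1 := clear_mem (S := S) hw b
      (N := 2 * (b.natDegree + c.divX.natDegree + n + 2) + 2) (k := n) (by omega)
    rw [hB]
    convert h1 using 1
    rw [pow_add, ev]
    ring
  -- w^n ∈ ϖ V₀
  have hnil : ∃ v₀ ∈ V0 S p, w ^ n = ϖ • v₀ := by
    have hnS : a.natDegree = n := by
      rw [hn, hAdef, natDegree_map_eq_of_injective hinj]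
    have h1 : C ϖ ∣ X ^ n - a.reverse := by
      rw [C_dvd_iff_dvd_coeff]
      intro i
      rw [coeff_sub, coeff_X_pow]
      by_cases hi : i = n
      · subst hi
        have h2 : a.reverse.coeff n = 1 := by
          have h3 : a.reverse.natDegree = n := by
            rw [← natDegree_map_eq_of_injective hinj, hrev, hpn]
          rw [← h3]
          exact hmonS
        rw [h2]
        simp
      · rw [if_neg hi, zero_sub, dvd_neg, coeff_reverse]
        apply hmod
        rw [hnS]
        by_cases hin : i ≤ n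
        · rw [revAt_le hin]
          omega
        · rw [revAt_eq_self_of_lt (by omega)]
          omega
    obtain ⟨q, hq⟩ := h1
    refine ⟨AdjoinRoot.mk p (q.map (algebraMap S K)), mem_V0_mk p q, ?_⟩
    have h2 := congrArg (fun f : S[X] => AdjoinRoot.mk p (f.map (algebraMap S K))) hq
    simp only [Polynomial.map_sub, Polynomial.map_pow, map_X, map_sub, map_pow, AdjoinRoot.mk_X,
      Polynomial.map_mul, map_mul, map_C] at h2
    rw [hrev, AdjoinRoot.mk_self, sub_zero] at h2
    rw [hwdef, h2, Algebra.smul_def]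
    congr 1
  obtain ⟨v₀, hv₀, hm⟩ := hnil
  have hdu : ∀ i : Fin n, AdjoinRoot.root p ^ (i : ℕ) ∈ V0 S p := fun i =>
    Subalgebra.pow_mem _ (root_mem_V0 p) _
  have hdu' : ∀ i : Fin n, AdjoinRoot.mk p (divX^[(i : ℕ) + 1] p) ∈ V0 S p := by
    intro i
    have h1 : divX^[(i : ℕ) + 1] p = (divX^[(i : ℕ) + 1] a.reverse).map (algebraMap S K) := by
      rw [← divX_iter_map, hrev]
    rw [h1]
    exact mem_V0_mk p _
  obtain ⟨y, hy⟩ := lattice D hD hDS ϖ hϖ hDϖ (V0 S p) (s0 hpm)
    (fun x hx => s0_mem hmonS hpm hrev x hx) (fun i : Fin n => AdjoinRoot.root p ^ (i : ℕ))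
    (fun i : Fin n => AdjoinRoot.mk p (divX^[(i : ℕ) + 1] p)) hdu hdu'
    (dualPair_w hpm hpn hn1') w v _ _ (root_mem_V0 p) hw hηη _ hcl1 hcl2 n v₀ hv₀ hm
  refine ⟨y, ?_⟩
  rw [← hy, ← PS_v D hD hA rfl hn1' B C']
  exact PS_indep _ D hD _ _ (dualPair_v hA rfl hn1') (dualPair_w hpm hpn hn1')

end main

end Pool.Agent.Helper47.HR
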