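import Pool.Agent.Helper47.HR.H
import Pool.Agent.Helper68.HR.A
import Pool.Agent.Helper80.HR.D

set_option autoImplicit false

namespace Pool.Agent.Helper47.HR

open Polynomial Matrix

section nat

variable {K L : Type*} [Field K] [Field L]

theorem Rs_map (ι : K →+* L) (x q : K[X]) : Rs (x.map ι) (q.map ι) = ι (Rs x q) := by
  rw [Rs, Rs, ← Polynomial.map_mod, coeff_map, natDegree_map, leadingCoeff_map, map_div₀]

theorem dl_coeff (D : K →+ K) (f : K[X]) (j : ℕ) :
    (dl D f).coeff j = D (f.coeff (j + 1)) * (j + 1) := by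
  rw [dl, coeff_derivative]
  congr 1
  rw [mapD, finsetSum_coeff]
  simp only [coeff_monomial]
  rw [Finset.sum_ite_eq' (Finset.range (f.natDegree + 1)) (j + 1)]
  split_ifs with h
  · rfl
  · rw [Finset.mem_range, not_lt] at h
    rw [coeff_eq_zero_of_natDegree_lt (by omega), map_zero]

theorem Xi_map (ι : K →+* K) (D : K →+ K) (hι : ∀ z, D (ι z) = ι (D z)) (a b c : K[X]) :
    Xi D (a.map ι) (b.map ι) (c.map ι) = ι (Xi D a b c) := by
  rw [Xi, Xi, ← Rs_map]
  congr 1
  have h1 : (c.map ι).divX = c.divX.map ι := by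
    ext i
    simp [coeff_divX, coeff_map]
  have h2 : dl D (a.map ι * b.map ι) = (dl D (a * b)).map ι := by
    ext i
    rw [dl_coeff, coeff_map, dl_coeff, ← Polynomial.map_mul, coeff_map, hι, map_mul, map_add,
      map_one, map_natCast]
  rw [h1, h2, Polynomial.map_mul]

/-- scaling of the variable -/
noncomputable def sc (l : K) (f : K[X]) : K[X] := f.comp (C l * X)

theorem sc_coeff (l : K) (f : K[X]) (i : ℕ) : (sc l f).coeff i = f.coeff i * l ^ i := by
  rw [sc, comp_C_mul_X_coeff]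

theorem sc_mul (l : K) (f g : K[X]) : sc l (f * g) = sc l f * sc l g := by
  rw [sc, sc, sc, mul_comp]

theorem sc_add (l : K) (f g : K[X]) : sc l (f + g) = sc l f + sc l g := by
  rw [sc, sc, sc, add_comp]

theorem sc_natDegree {l : K} (hl : l ≠ 0) (f : K[X]) : (sc l f).natDegree = f.natDegree := by
  by_cases hf : f = 0
  · simp [hf, sc]
  apply le_antisymm
  · rw [natDegree_le_iff_coeff_eq_zero]
    intro i hi
    rw [sc_coeff, coeff_eq_zero_of_natDegree_lt hi, zero_mul]
  · apply le_natDegree_of_ne_zero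
    rw [sc_coeff]
    exact mul_ne_zero (leadingCoeff_ne_zero.mpr hf) (pow_ne_zero _ hl)

theorem sc_mod {l : K} (hl : l ≠ 0) (f g : K[X]) : sc l f % sc l g = sc l (f % g) := by
  by_cases hg : g = 0
  · subst hg
    have : sc l (0 : K[X]) = 0 := by simp [sc]
    rw [this, EuclideanDomain.mod_zero, EuclideanDomain.mod_zero]
  have h1 : sc l g * sc l (f / g) + sc l (f % g) = sc l f := by
    rw [← sc_mul, ← sc_add, EuclideanDomain.div_add_mod]
  have h0 : sc l g ≠ 0 := by
    intro h
    have h2 := sc_coeff l g g.natDegree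
    rw [h, coeff_zero] at h2
    exact mul_ne_zero (leadingCoeff_ne_zero.mpr hg) (pow_ne_zero _ hl) h2.symm
  have h2 : (sc l (f % g)).degree < (sc l g).degree := by
    by_cases hr : f % g = 0
    · rw [hr]
      have : sc l (0 : K[X]) = 0 := by simp [sc]
      rw [this, degree_zero]
      exact bot_lt_iff_ne_bot.mpr (degree_ne_bot.mpr h0)
    · have h3 : (f % g).degree < g.degree := EuclideanDomain.mod_lt f hg
      have h4 : (f % g).natDegree < g.natDegree := natDegree_lt_natDegree hr h3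
      apply degree_lt_degree
      rwa [sc_natDegree hl, sc_natDegree hl]
  rw [mod_eq_of_dvd_sub (p₂ := sc l (f % g)) ⟨sc l (f / g), by rw [← h1]; ring⟩]
  exact (mod_eq_self_iff h0).mpr h2

theorem Rs_sc {l : K} (hl : l ≠ 0) (x q : K[X]) : Rs (sc l x) (sc l q) = l⁻¹ * Rs x q := by
  rw [Rs, Rs, sc_mod hl, sc_coeff, sc_natDegree hl]
  by_cases hq : q.natDegree = 0
  · by_cases hq0 : q = 0
    · subst hq0
      simp [sc]
    · have h1 : q = C (q.coeff 0) := eq_C_of_natDegree_eq_zero hq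
      have h2 : q.coeff 0 ≠ 0 := by
        intro h
        rw [h, C_0] at h1
        exact hq0 h1
      have h3 : x % q = 0 := by
        rw [EuclideanDomain.mod_eq_zero]
        rw [h1]
        exact (isUnit_C.mpr (isUnit_iff_ne_zero.mpr h2)).dvd
      rw [h3]
      simp
  · have h1 : (sc l q).leadingCoeff = q.leadingCoeff * l ^ q.natDegree := by
      rw [leadingCoeff, sc_natDegree hl, sc_coeff]
      rfl
    have h2 : l ^ q.natDegree = l ^ (q.natDegree - 1) * l := by
      rw [← pow_succ]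
      congr 1
      omega
    have h3 : q.leadingCoeff ≠ 0 := by
      rw [leadingCoeff_ne_zero]
      rintro rfl
      simp at hq
    rw [h1, h2]
    have h4 : l ^ (q.natDegree - 1) ≠ 0 := pow_ne_zero _ hl
    field_simp

theorem Xi_sc (D : K →+ K) {l : K} (hl : l ≠ 0) (hD : ∀ x, D (l * x) = l * D x) (a b c : K[X]) :
    Xi D (sc l a) (sc l b) (sc l c) = l * Xi D a b c := by
  have hpow : ∀ (n : ℕ) (x : K), D (x * l ^ n) = D x * l ^ n := by
    intro n
    induction n with
    | zero => intro x; simp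
    | succ n ih =>
      intro x
      rw [pow_succ, ← mul_assoc, mul_comm (x * l ^ n) l, hD, ih]
      ring
  have h1 : (sc l c).divX = C l * sc l c.divX := by
    ext i
    rw [coeff_divX, sc_coeff, coeff_C_mul, sc_coeff, coeff_divX]
    ring
  have h2 : dl D (sc l a * sc l b) = C l * sc l (dl D (a * b)) := by
    ext i
    rw [← sc_mul, dl_coeff, sc_coeff, coeff_C_mul, sc_coeff, dl_coeff, hpow]
    ring
  have hC : sc l (C (l ^ 2)) = C (l ^ 2) := by simp [sc]
  have h3 : (sc l c).divX * dl D (sc l a * sc l b) = sc l (C (l ^ 2) * (c.divX * dl D (a * b))) := by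
    rw [h1, h2, sc_mul, sc_mul, hC, C_pow]
    ring
  have h4 : Rs (C (l ^ 2) * (c.divX * dl D (a * b))) a = l ^ 2 * Rs (c.divX * dl D (a * b)) a := by
    rw [Rs, Rs, ← smul_eq_C_mul, ← mul_div_assoc]
    congr 1
    have : (l ^ 2 • (c.divX * dl D (a * b))) % a = l ^ 2 • ((c.divX * dl D (a * b)) % a) := by
      rw [mod_def, mod_def, smul_modByMonic]
    rw [this, coeff_smul, smul_eq_mul]
  rw [Xi, Xi, h3, Rs_sc hl, h4]
  field_simp

end nat

section inv

variable {k : Type*} [Field k]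

/-- the field `k(s)` -/
abbrev Ks (k : Type*) [Field k] := FractionRing k[X]

/-- the variable `s` -/
noncomputable def sv (k : Type*) [Field k] : Ks k := algebraMap k[X] (Ks k) X

theorem sv_ne (k : Type*) [Field k] : sv k ≠ 0 := by
  rw [sv, ne_eq, FaithfulSMul.algebraMap_eq_zero_iff]
  exact X_ne_zero

/-- constants -/
noncomputable def kc (k : Type*) [Field k] : k →+* Ks k := (algebraMap k[X] (Ks k)).comp C

/-- `f ↦ f(1/s)` -/
noncomputable def iota0 (k : Type*) [Field k] : k[X] →+* Ks k := eval₂RingHom (kc k) (sv k)⁻¹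

theorem iota0_inj : Function.Injective (iota0 k) := by
  rw [injective_iff_map_eq_zero]
  intro f hf
  letI : Invertible (sv k)⁻¹ := ⟨sv k, mul_inv_cancel₀ (sv_ne k), inv_mul_cancel₀ (sv_ne k)⟩
  have h1 := (eval₂_reverse_eq_zero_iff (kc k) (sv k)⁻¹ f).mpr hf
  have h2 : eval₂ (kc k) (⅟(sv k)⁻¹) f.reverse = algebraMap k[X] (Ks k) f.reverse := by
    change eval₂ (kc k) (sv k) f.reverse = _
    rw [kc, sv, ← hom_eval₂, eval₂_C_X]
  rw [h2, FaithfulSMul.algebraMap_eq_zero_iff, reverse_eq_zero] at h1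
  exact h1

/-- the automorphism `s ↦ 1/s` -/
noncomputable def iota (k : Type*) [Field k] : Ks k →+* Ks k :=
  IsFractionRing.lift (A := k[X]) (iota0_inj (k := k))

theorem iota_alg (f : k[X]) : iota k (algebraMap k[X] (Ks k) f) = iota0 k f := by
  rw [iota, IsFractionRing.lift_algebraMap]

theorem iota_sv : iota k (sv k) = (sv k)⁻¹ := by
  rw [sv, iota_alg, iota0, coe_eval₂RingHom, eval₂_X, sv]

theorem iota_kc (c : k) : iota k (kc k c) = kc k c := by
  rw [kc, RingHom.comp_apply, iota_alg, iota0, coe_eval₂RingHom, eval₂_C, kc, RingHom.comp_apply]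

theorem D_iota (D : k →+ k) (D' : Ks k →+ Ks k)
    (h1 : ∀ r x, D' (r ^ 2 * x) = r ^ 2 * D' x)
    (h2 : ∀ f : k[X], D' (algebraMap k[X] (Ks k) f) = algebraMap k[X] (Ks k) (mapD D f))
    (h3 : ∀ z, D' (sv k * z) = sv k * D' z) (z : Ks k) :
    D' (iota k z) = iota k (D' z) := by
  have hs := sv_ne k
  have hinv : ∀ z, D' ((sv k)⁻¹ * z) = (sv k)⁻¹ * D' z := by
    intro z
    have h4 : D' z = sv k * D' ((sv k)⁻¹ * z) := by
      rw [← h3, mul_inv_cancel_left₀ hs]
    rw [h4, inv_mul_cancel_left₀ hs]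
  have hpow : ∀ (n : ℕ) (z), D' (z * (sv k)⁻¹ ^ n) = D' z * (sv k)⁻¹ ^ n := by
    intro n
    induction n with
    | zero => intro z; simp
    | succ n ih =>
      intro z
      rw [pow_succ, ← mul_assoc, mul_comm _ (sv k)⁻¹, hinv, ih]
      ring
  have hkc : ∀ c : k, D' (kc k c) = kc k (D c) := by
    intro c
    rw [kc, RingHom.comp_apply, h2, RingHom.comp_apply]
    congr 1
    ext i
    rw [coeff_mapD, coeff_C, coeff_C]
    split_ifs <;> simp
  have hpoly : ∀ f : k[X], D' (iota0 k f) = iota0 k (mapD D f) := by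
    intro f
    have hadd : ∀ f g : k[X], mapD D (f + g) = mapD D f + mapD D g := mapD_add D
    induction f using Polynomial.induction_on' with
    | add p q hp hq => rw [map_add, map_add, hp, hq, hadd, map_add]
    | monomial n a =>
      have h4 : mapD D (monomial n a) = monomial n (D a) := by
        ext i
        rw [coeff_mapD, coeff_monomial, coeff_monomial]
        split_ifs <;> simp
      rw [h4, iota0, coe_eval₂RingHom, eval₂_monomial, eval₂_monomial, hpow, hkc]
  obtain ⟨⟨u, v⟩, rfl⟩ : ∃ uv : k[X] × nonZeroDivisors k[X],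
      z = algebraMap k[X] (Ks k) uv.1 / algebraMap k[X] (Ks k) uv.2 := by
    obtain ⟨u, v, hv, rfl⟩ := IsFractionRing.div_surjective (A := k[X]) z
    exact ⟨(u, ⟨v, hv⟩), rfl⟩
  have hv : algebraMap k[X] (Ks k) v ≠ 0 := by
    rw [ne_eq, FaithfulSMul.algebraMap_eq_zero_iff]
    exact nonZeroDivisors.coe_ne_zero v
  have h5 : algebraMap k[X] (Ks k) u / algebraMap k[X] (Ks k) v
      = ((algebraMap k[X] (Ks k) v)⁻¹) ^ 2 * algebraMap k[X] (Ks k) (u * v) := by
    rw [map_mul]
    field_simp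
  simp only
  rw [h5, h1, map_mul, map_pow, h1, iota_alg, hpoly, h2, map_mul, map_pow, iota_alg]

end inv


section mainNL

variable {k : Type*} [Field k]

/-- `X ↦ sT, Y ↦ T` -/
noncomputable def ph1 (k : Type*) [Field k] : k[X][X] →+* k[X][X] :=
  eval₂RingHom (eval₂RingHom (C.comp C) (C X * X)) X

/-- `X ↦ T, Y ↦ sT` -/
noncomputable def ph2 (k : Type*) [Field k] : k[X][X] →+* k[X][X] :=
  eval₂RingHom (eval₂RingHom (C.comp C) X) (C X * X)

theorem ph1_zero (P : k[X][X]) :
    mapRingHom (evalRingHom 0) (ph1 k P) = mapRingHom (evalRingHom 0) P := by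
  have : (mapRingHom (evalRingHom 0)).comp (ph1 k) = mapRingHom (evalRingHom (0 : k)) := by
    apply Polynomial.ringHom_ext'
    · apply Polynomial.ringHom_ext
      · intro a
        simp [ph1]
      · simp [ph1]
    · simp [ph1]
  exact RingHom.congr_fun this P

theorem ph1_one (P : k[X][X]) :
    mapRingHom (evalRingHom 1) (ph1 k P) = evalRingHom X P := by
  have : (mapRingHom (evalRingHom (1 : k))).comp (ph1 k) = evalRingHom X := by
    apply Polynomial.ringHom_ext'
    · apply Polynomial.ringHom_ext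
      · intro a
        simp [ph1]
      · simp [ph1]
    · simp [ph1]
  exact RingHom.congr_fun this P

theorem ph1_T (P : k[X][X]) : (ph1 k P).eval 0 = C ((P.eval 0).eval 0) := by
  have : (evalRingHom (0 : k[X])).comp (ph1 k)
      = (C.comp (evalRingHom 0)).comp (evalRingHom 0) := by
    apply Polynomial.ringHom_ext'
    · apply Polynomial.ringHom_ext
      · intro a
        simp [ph1]
      · simp [ph1]
    · simp [ph1]
  exact RingHom.congr_fun this P

theorem ph2_zero (P : k[X][X]) :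
    mapRingHom (evalRingHom 0) (ph2 k P) = evalRingHom 0 P := by
  have : (mapRingHom (evalRingHom (0 : k))).comp (ph2 k) = evalRingHom 0 := by
    apply Polynomial.ringHom_ext'
    · apply Polynomial.ringHom_ext
      · intro a
        simp [ph2]
      · simp [ph2]
    · simp [ph2]
  exact RingHom.congr_fun this P

theorem ph2_T (P : k[X][X]) : (ph2 k P).eval 0 = C ((P.eval 0).eval 0) := by
  have : (evalRingHom (0 : k[X])).comp (ph2 k)
      = (C.comp (evalRingHom 0)).comp (evalRingHom 0) := by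
    apply Polynomial.ringHom_ext'
    · apply Polynomial.ringHom_ext
      · intro a
        simp [ph2]
      · simp [ph2]
    · simp [ph2]
  exact RingHom.congr_fun this P

/-- the relation between the two charts -/
theorem ph_rel (P : k[X][X]) :
    (ph1 k P).map (algebraMap k[X] (Ks k))
      = sc (sv k) (((ph2 k P).map (algebraMap k[X] (Ks k))).map (iota k)) := by
  have : (mapRingHom (algebraMap k[X] (Ks k))).comp (ph1 k)
      = ((compRingHom (C (sv k) * X)).comp (mapRingHom (iota k))).comp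
        ((mapRingHom (algebraMap k[X] (Ks k))).comp (ph2 k)) := by
    have hs := sv_ne k
    apply Polynomial.ringHom_ext'
    · apply Polynomial.ringHom_ext
      · intro a
        have := iota_kc (k := k) a
        simp only [kc, RingHom.comp_apply] at this
        simp [ph1, ph2, this]
      · simp [ph1, ph2, sv]
    · have := iota_sv (k := k)
      simp only [sv] at this hs
      simp [ph1, ph2, sv, this]
      rw [← mul_assoc, ← C_mul, inv_mul_cancel₀ hs, C_1, one_mul]
  have h := RingHom.congr_fun this P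
  simpa [sc] using h

theorem U_map {R R' : Type*} [CommRing R] [CommRing R'] (f : R →+* R') (a b c : R) :
    (U a b c).map f = U (f a) (f b) (f c) := by
  ext i j
  fin_cases i <;> fin_cases j <;> simp [U]

theorem U_sq {R : Type*} [CommRing R] (h2 : (2 : R) = 0) (a b c : R) :
    U a b c * U a b c = 1 := by
  unfold U
  rw [mul_fin_two, one_fin_two]
  refine Matrix.ext fun i j => ?_
  fin_cases i <;> fin_cases j <;> simp
  · linear_combination (a * b * c + a ^ 2 * b ^ 2 * c ^ 2) * h2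
  · linear_combination (a ^ 2 * c + a ^ 3 * b * c ^ 2) * h2
  · linear_combination (b ^ 2 * c + a * b ^ 3 * c ^ 2) * h2
  · linear_combination (a * b * c + a ^ 2 * b ^ 2 * c ^ 2) * h2

/-- a polynomial in `s` which is a polynomial in `1/s` is constant -/
theorem const_of_eq {P Q : k[X]} (h : algebraMap k[X] (Ks k) P = iota0 k Q) :
    P.natDegree = 0 := by
  letI : Invertible (sv k)⁻¹ := ⟨sv k, mul_inv_cancel₀ (sv_ne k), inv_mul_cancel₀ (sv_ne k)⟩
  have h1 := eval₂_reverse_mul_pow (kc k) (sv k)⁻¹ Q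
  have h2 : eval₂ (kc k) (⅟(sv k)⁻¹) Q.reverse = algebraMap k[X] (Ks k) Q.reverse := by
    change eval₂ (kc k) (sv k) Q.reverse = _
    rw [kc, sv, ← hom_eval₂, eval₂_C_X]
  rw [h2] at h1
  have h3 : algebraMap k[X] (Ks k) Q.reverse = algebraMap k[X] (Ks k) (P * X ^ Q.natDegree) := by
    rw [map_mul, h, map_pow]
    change _ = eval₂ (kc k) (sv k)⁻¹ Q * (sv k) ^ Q.natDegree
    rw [← h1, mul_assoc, ← mul_pow, inv_mul_cancel₀ (sv_ne k), one_pow, mul_one]
  have h4 : Q.reverse = P * X ^ Q.natDegree := IsFractionRing.injective k[X] (Ks k) h3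
  by_cases hP : P = 0
  · simp [hP]
  have h5 : (P * X ^ Q.natDegree).natDegree = P.natDegree + Q.natDegree :=
    natDegree_mul_X_pow _ hP
  have h6 : Q.reverse.natDegree ≤ Q.natDegree := reverse_natDegree_le Q
  rw [h4, h5] at h6
  omega

/-- one of the six factors, over `k[s][T]` -/
noncomputable def Wm (v₁ v₂ t : k) : Matrix (Fin 2) (Fin 2) k[X][X] :=
  U (C (C v₁)) (C (C v₂)) (C (C t) * X)

theorem Wm_det [CharP k 2] (v₁ v₂ t : k) : (Wm v₁ v₂ t).det = 1 := by
  have h2 : (2 : k[X][X]) = 0 := CharTwo.two_eq_zero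
  unfold Wm U
  rw [det_fin_two_of]
  linear_combination (C (C v₁) * C (C v₂) * (C (C t) * X)) * h2

theorem Wm_T (v₁ v₂ t : k) : (Wm v₁ v₂ t).map (evalRingHom 0) = 1 := by
  rw [Wm, U_map]
  ext i j
  fin_cases i <;> fin_cases j <;> simp [U]

/-- the inverse of `α` as a product of the same factors, over `k[s][T]` -/
noncomputable def Wall (x y : k) (g : Matrix (Fin 2) (Fin 2) k[X][X]) :
    Matrix (Fin 2) (Fin 2) k[X][X] :=
  g * Wm 0 1 (x * y * ((1 + x) * (1 + y))) * Wm 1 0 ((1 + x) * (1 + y)) * Wm 1 (x * y) 1 *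
    Wm 1 x y * Wm 1 y x * Wm 1 1 (x * y)

/-- good matrices over `k[s][T]` -/
def Gd (g : Matrix (Fin 2) (Fin 2) k[X][X]) : Prop := g.det = 1 ∧ g.map (evalRingHom 0) = 1

theorem Gd.mul {g g' : Matrix (Fin 2) (Fin 2) k[X][X]} (h : Gd g) (h' : Gd g') :
    Gd (g * g') := by
  refine ⟨by rw [det_mul, h.1, h'.1, one_mul], ?_⟩
  rw [Matrix.map_mul, h.2, h'.2, one_mul]

theorem Gd_Wm [CharP k 2] (v₁ v₂ t : k) : Gd (Wm v₁ v₂ t) := ⟨Wm_det _ _ _, Wm_T _ _ _⟩

/-- `Xi` of a matrix over `k[s][T]` -/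
noncomputable def XK (D' : Ks k →+ Ks k) (g : Matrix (Fin 2) (Fin 2) k[X][X]) : Ks k :=
  Xi D' ((g 0 0).map (algebraMap k[X] (Ks k))) ((g 0 1).map (algebraMap k[X] (Ks k)))
    ((g 1 0).map (algebraMap k[X] (Ks k)))

theorem XK_step [CharP k 2] (D' : Ks k →+ Ks k) (hD : ∀ r x, D' (r ^ 2 * x) = r ^ 2 * D' x)
    {g : Matrix (Fin 2) (Fin 2) k[X][X]} (hg : Gd g) (v₁ v₂ t : k) :
    XK D' (g * Wm v₁ v₂ t) = XK D' g + kc k v₁ * kc k v₂ * D' (kc k t) := by
  have h1 := Xi_mul_U D' hD (g.map (mapRingHom (algebraMap k[X] (Ks k))))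
    (by rw [← RingHom.mapMatrix_apply, ← RingHom.map_det, hg.1, map_one])
    (by
      ext i j
      have h2 := congrFun (congrFun hg.2 i) j
      rw [map_apply, coe_evalRingHom] at h2
      rw [map_apply, map_apply, coe_mapRingHom, ← coeff_zero_eq_eval_zero, coeff_map,
        coeff_zero_eq_eval_zero, h2]
      by_cases hij : i = j
      · subst hij
        simp
      · simp [hij]) (kc k v₁) (kc k v₂) (kc k t)
  have h3 : g.map (mapRingHom (algebraMap k[X] (Ks k)))
      * U (C (kc k v₁)) (C (kc k v₂)) (C (kc k t) * X)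
      = (g * Wm v₁ v₂ t).map (mapRingHom (algebraMap k[X] (Ks k))) := by
    rw [Matrix.map_mul, Wm, U_map]
    simp [kc]
  rw [h3] at h1
  exact h1

theorem NL [CharP k 2] (D : k →+ k)
    (hD : ∀ r x, D (r ^ 2 * x) = r ^ 2 * D x) (x y : k)
    (h1 : D 1 = 0) (hx : D x = 0) (hy : D y = 0) (hxy : D (x * y) = 1) :
    ¬ ∃ α' : Matrix (Fin 2) (Fin 2) (Polynomial (Polynomial k)), α'.det = 1 ∧
      α'.map (evalRingHom 0) = 1 ∧ α'.map (mapRingHom (evalRingHom 0)) = 1 ∧
      α'.map (evalRingHom X) = alpha x y := by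
  rintro ⟨α', hdet, hY, hX, hdiag⟩
  obtain ⟨D', hD1, hD2, hD3⟩ := ext_ratfunc D hD
  have hD3' : ∀ z, D' (sv k * z) = sv k * D' z := hD3
  have hDS : ∀ f : k[X], ∃ g : k[X], D' (algebraMap k[X] (Ks k) f) = algebraMap k[X] (Ks k) g :=
    fun f => ⟨_, hD2 f⟩
  have hkc : ∀ c : k, D' (kc k c) = kc k (D c) := by
    intro c
    rw [kc, RingHom.comp_apply, hD2, RingHom.comp_apply]
    congr 1
    ext i
    rw [coeff_mapD, coeff_C, coeff_C]
    split_ifs <;> simp
  -- the two charts
  set g1 : Matrix (Fin 2) (Fin 2) k[X][X] := α'.map (ph1 k) with hg1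
  set g2 : Matrix (Fin 2) (Fin 2) k[X][X] := α'.map (ph2 k) with hg2
  have hY0 : ∀ i j, (α' i j).eval 0 = (1 : Matrix (Fin 2) (Fin 2) k[X]) i j := by
    intro i j
    have := congrFun (congrFun hY i) j
    rwa [map_apply, coe_evalRingHom] at this
  have hG1 : Gd g1 := by
    refine ⟨by rw [hg1, ← RingHom.mapMatrix_apply, ← RingHom.map_det, hdet, map_one], ?_⟩
    ext i j : 2
    rw [map_apply, hg1, map_apply, coe_evalRingHom, ph1_T, hY0]
    by_cases hij : i = j
    · subst hij
      simp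
    · simp [hij]
  have hG2 : Gd g2 := by
    refine ⟨by rw [hg2, ← RingHom.mapMatrix_apply, ← RingHom.map_det, hdet, map_one], ?_⟩
    ext i j : 2
    rw [map_apply, hg2, map_apply, coe_evalRingHom, ph2_T, hY0]
    by_cases hij : i = j
    · subst hij
      simp
    · simp [hij]
  -- the general consequence of Xi_mod'
  have hmodgen : ∀ (g : Matrix (Fin 2) (Fin 2) k[X][X]) (c : k), (c = 0 ∨ c = 1) → Gd g →
      g.map (mapRingHom (evalRingHom c)) = 1 →
      ∃ P : k[X], XK D' g = algebraMap k[X] (Ks k) ((X - C c) * P) := by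
    intro g c hc01 hg hgc
    have hpr : Prime (X - C c) := prime_X_sub_C c
    have hco : ∀ i j, (g i j).coeff 0 = (1 : Matrix (Fin 2) (Fin 2) k[X]) i j := by
      intro i j
      have := congrFun (congrFun hg.2 i) j
      rwa [map_apply, coe_evalRingHom, ← coeff_zero_eq_eval_zero] at this
    refine Xi_mod' D' hD1 hDS (X - C c) hpr ?_ (g 0 0) (g 0 1) (g 1 0) (g 1 1) ?_ ?_ ?_ ?_
    · intro z
      have e1 : ∀ u, algebraMap k[X] (Ks k) (X - C c) * u = sv k * u - kc k c * u := by
        intro u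
        rw [map_sub, sub_mul]
        rfl
      rw [e1, e1, map_sub, hD3']
      congr 1
      rcases hc01 with rfl | rfl
      · simp
      · simp
    · have := hg.1
      rwa [det_fin_two] at this
    · rw [hco]; simp
    · rw [hco]; simp
    · intro i hi
      rw [dvd_iff_isRoot, IsRoot.def]
      have h2 := congrFun (congrFun hgc 0) 0
      rw [map_apply, coe_mapRingHom] at h2
      have h3 := congrArg (fun f : k[X] => f.coeff i) h2
      simp only [coeff_map, coe_evalRingHom, one_apply_eq, coeff_one, if_neg hi] at h3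
      exact h3
  have hX0 : ∀ i j, mapRingHom (evalRingHom 0) (α' i j) = (1 : Matrix (Fin 2) (Fin 2) k[X]) i j :=
    fun i j => congrFun (congrFun hX i) j
  obtain ⟨P1, hP1⟩ := hmodgen g1 0 (Or.inl rfl) hG1 (by
    ext i j : 2
    rw [map_apply, hg1, map_apply, ph1_zero, hX0])
  obtain ⟨P2, hP2⟩ := hmodgen g2 0 (Or.inl rfl) hG2 (by
    ext i j : 2
    rw [map_apply, hg2, map_apply, ph2_zero, coe_evalRingHom, hY0])
  rw [C_0, sub_zero] at hP1 hP2
  -- relation between the charts
  have hrel : XK D' g1 = sv k * iota k (XK D' g2) := by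
    have hsc : XK D' g1 = Xi D'
        (sc (sv k) (((g2 0 0).map (algebraMap k[X] (Ks k))).map (iota k)))
        (sc (sv k) (((g2 0 1).map (algebraMap k[X] (Ks k))).map (iota k)))
        (sc (sv k) (((g2 1 0).map (algebraMap k[X] (Ks k))).map (iota k))) := by
      rw [XK, hg1, hg2]
      simp only [map_apply]
      rw [ph_rel, ph_rel, ph_rel]
    rw [hsc, Xi_sc D' (sv_ne k) hD3', Xi_map (iota k) D' (D_iota D D' hD1 hD2 hD3'), XK]
  have hF0 : XK D' g1 = 0 := by
    have e1 : algebraMap k[X] (Ks k) (X * P1) = iota0 k P2 := by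
      rw [← hP1, hrel, hP2, iota_alg, map_mul]
      have : iota0 k X = (sv k)⁻¹ := by
        rw [iota0, coe_eval₂RingHom, eval₂_X]
      rw [this, mul_inv_cancel_left₀ (sv_ne k)]
    have e2 := const_of_eq e1
    have e3 : P1 = 0 := by
      by_contra hne
      rw [natDegree_X_mul hne] at e2
      omega
    rw [hP1, e3, mul_zero, map_zero]
  -- the product with the inverse of alpha
  have hw1 : Gd (Wall x y g1) :=
    (((((hG1.mul (Gd_Wm _ _ _)).mul (Gd_Wm _ _ _)).mul (Gd_Wm _ _ _)).mul (Gd_Wm _ _ _)).mul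
      (Gd_Wm _ _ _)).mul (Gd_Wm _ _ _)
  have hval : XK D' (Wall x y g1) = 1 := by
    rw [Wall,
      XK_step D' hD1 (((((hG1.mul (Gd_Wm _ _ _)).mul (Gd_Wm _ _ _)).mul (Gd_Wm _ _ _)).mul
        (Gd_Wm _ _ _)).mul (Gd_Wm _ _ _)),
      XK_step D' hD1 ((((hG1.mul (Gd_Wm _ _ _)).mul (Gd_Wm _ _ _)).mul (Gd_Wm _ _ _)).mul
        (Gd_Wm _ _ _)),
      XK_step D' hD1 (((hG1.mul (Gd_Wm _ _ _)).mul (Gd_Wm _ _ _)).mul (Gd_Wm _ _ _)),
      XK_step D' hD1 ((hG1.mul (Gd_Wm _ _ _)).mul (Gd_Wm _ _ _)),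
      XK_step D' hD1 (hG1.mul (Gd_Wm _ _ _)),
      XK_step D' hD1 hG1, hF0]
    have hD'1 : D' 1 = 0 := by
      have := hkc 1
      rwa [map_one, h1, map_zero] at this
    simp only [hkc, h1, hx, hy, hxy, hD'1, map_zero, map_one, mul_zero, zero_mul, mul_one, add_zero,
      zero_add]
  have hone : (Wall x y g1).map (mapRingHom (evalRingHom 1)) = 1 := by
    have e1 : g1.map (mapRingHom (evalRingHom 1)) = alpha x y := by
      rw [← hdiag]
      ext i j : 2
      rw [map_apply, hg1, map_apply, map_apply, ph1_one]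
    have h2 : (2 : k[X]) = 0 := CharTwo.two_eq_zero
    have e2 : ∀ v₁ v₂ t : k, (Wm v₁ v₂ t).map (mapRingHom (evalRingHom 1))
        = U (C v₁) (C v₂) (C t * X) := by
      intro v₁ v₂ t
      rw [Wm, U_map]
      simp
    rw [Wall]
    simp only [Matrix.map_mul, e1, e2, alpha, map_zero, map_one]
    have hc : ∀ (A U : Matrix (Fin 2) (Fin 2) k[X]), U * U = 1 → A * U * U = A := by
      intro A U hU
      rw [mul_assoc, hU, mul_one]
    rw [hc _ _ (U_sq h2 _ _ _), hc _ _ (U_sq h2 _ _ _), one_mul, hc _ _ (U_sq h2 _ _ _),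
      hc _ _ (U_sq h2 _ _ _), hc _ _ (U_sq h2 _ _ _), U_sq h2]
  obtain ⟨P3, hP3⟩ := hmodgen (Wall x y g1) 1 (Or.inr rfl) hw1 hone
  rw [hval] at hP3
  have e1 : (1 : k[X]) = (X - C 1) * P3 := by
    apply IsFractionRing.injective k[X] (Ks k)
    rw [← hP3, map_one]
  have e2 := congrArg (eval 1) e1
  simp at e2

end mainNL

end Pool.Agent.Helper47.HR
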