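import Pool.Agent.Helper77.HR.F
import Pool.Agent.Helper47.HR.G

set_option autoImplicit false

namespace Pool.Agent.Helper47.HR

open Polynomial Matrix

section J1

variable {k : Type} [Field k]

/-- the subring `k + f k[X,Y]` -/
noncomputable def AA (k : Type) [Field k] : Subring k[X][X] where
  carrier := {b | ∃ c : k, X * C X * (X - C X) ∣ b - C (C c)}
  mul_mem' := by
    rintro a b ⟨c, q, hq⟩ ⟨c', q', hq'⟩
    refine ⟨c * c', a * q' + C (C c') * q, ?_⟩
    rw [C_mul, C_mul]
    linear_combination a * hq' + C (C c') * hq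
  one_mem' := ⟨1, 0, by simp⟩
  add_mem' := by
    rintro a b ⟨c, q, hq⟩ ⟨c', q', hq'⟩
    refine ⟨c + c', q + q', ?_⟩
    rw [C_add, C_add]
    linear_combination hq + hq'
  zero_mem' := ⟨0, 0, by simp⟩
  neg_mem' := by
    rintro a ⟨c, q, hq⟩
    refine ⟨-c, -q, ?_⟩
    rw [C_neg, C_neg]
    linear_combination -hq

/-- the homothety -/
noncomputable def th (k : Type) [Field k] : k[X][X] →+* k[X][X][X] :=
  eval₂RingHom (R := k[X]) (S := Polynomial (Polynomial (Polynomial k)))
    (eval₂RingHom (R := k) (S := Polynomial (Polynomial (Polynomial k)))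
      ((C : k[X][X] →+* Polynomial (Polynomial (Polynomial k))).comp
        ((C : k[X] →+* k[X][X]).comp (C : k →+* k[X])))
      ((C (C X : k[X][X]) : Polynomial (Polynomial (Polynomial k))) * X))
    ((C (X : k[X][X]) : Polynomial (Polynomial (Polynomial k))) * X)

theorem th_C (c : k) : th k (C (C c)) = C (C (C c)) := by
  simp [th]

theorem th_X : th k X = C X * X := by
  simp [th]

theorem th_CX : th k (C X) = C (C X) * X := by
  simp [th]

theorem th_f : th k (X * C X * (X - C X)) = C (X * C X * (X - C X)) * X ^ 3 := by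
  rw [map_mul, map_mul, map_sub, th_X, th_CX, C_mul, C_mul, C_sub]
  ring

theorem th_one (b : k[X][X]) : (th k b).eval 1 = b := by
  have : (evalRingHom (1 : k[X][X])).comp (th k) = RingHom.id _ := by
    apply Polynomial.ringHom_ext'
    · apply Polynomial.ringHom_ext
      · intro a
        simp [th]
      · simp [th]
    · simp [th]
  exact RingHom.congr_fun this b

theorem th_coeff {b : k[X][X]} (hb : b ∈ AA k) (n : ℕ) : (th k b).coeff n ∈ AA k := by
  obtain ⟨c, q, hq⟩ := hb
  have h1 : b = C (C c) + X * C X * (X - C X) * q := by linear_combination hq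
  rw [h1, map_add, map_mul, th_f, th_C, mul_assoc, coeff_add, coeff_C_mul]
  apply Subring.add_mem
  · rw [coeff_C]
    split_ifs
    · exact ⟨c, 0, by simp⟩
    · exact ⟨0, 0, by simp⟩
  · exact ⟨0, (X ^ 3 * th k q).coeff n, by simp⟩

theorem th_zero {b : k[X][X]} {c : k[X][X]} (hc : th k c = C c)
    (hb : X * C X * (X - C X) ∣ b - c) : (th k b).coeff 0 = c := by
  obtain ⟨q, hq⟩ := hb
  have h1 : b = c + X * C X * (X - C X) * q := by linear_combination hq
  rw [h1, map_add, map_mul, th_f, hc, mul_assoc, coeff_add, coeff_C_mul, coeff_C_zero]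
  have : (X ^ 3 * th k q).coeff 0 = 0 := by
    rw [mul_coeff_zero]
    simp
  rw [this, mul_zero, add_zero]

theorem exists_lift {b : k[X][X]} (hb : b ∈ AA k) :
    ∃ V : (AA k)[X], V.map (AA k).subtype = th k b := by
  have h : th k b ∈ lifts (AA k).subtype := by
    rw [lifts_iff_coeff_lifts]
    intro n
    exact ⟨⟨_, th_coeff hb n⟩, rfl⟩
  obtain ⟨V, hV⟩ := (mem_lifts _).mp h
  exact ⟨V, hV⟩

theorem J1 (h : HRC) (v w : Fin 3 → Polynomial (Polynomial k))
    (hvw : ∑ i, v i * w i = 1)
    (hv : ∀ i, X * C X * (X - C X) ∣ v i - (if i = 2 then 1 else 0))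
    (hw : ∀ i, X * C X * (X - C X) ∣ w i - (if i = 2 then 1 else 0)) :
    ∃ τ τ1 : Matrix (Fin 3) (Fin 3) (Polynomial (Polynomial k)), τ * τ1 = 1 ∧
      (∀ i j, ∃ c : k, X * C X * (X - C X) ∣ τ i j - C (C c)) ∧
      (∀ i j, ∃ c : k, X * C X * (X - C X) ∣ τ1 i j - C (C c)) ∧
      (∀ j, τ 2 j = v j) := by
  have hmem : ∀ (u : Fin 3 → k[X][X]),
      (∀ i, X * C X * (X - C X) ∣ u i - (if i = 2 then 1 else 0)) → ∀ i, u i ∈ AA k := by
    intro u hu i
    refine ⟨if i = 2 then 1 else 0, ?_⟩
    convert hu i using 2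
    split_ifs <;> simp
  have hvm := hmem v hv
  have hwm := hmem w hw
  choose V hV using fun i => exists_lift (hvm i)
  choose W hW using fun i => exists_lift (hwm i)
  have hinj : Function.Injective (Polynomial.map (AA k).subtype) :=
    Polynomial.map_injective _ Subtype.val_injective
  have hVW : ∑ i, V i * W i = 1 := by
    apply hinj
    rw [Polynomial.map_sum, Polynomial.map_one]
    have : ∀ i ∈ Finset.univ, (V i * W i).map (AA k).subtype = th k (v i * w i) := by
      intro i _
      rw [Polynomial.map_mul, hV, hW, map_mul]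
    rw [Finset.sum_congr rfl this, ← map_sum, hvw, map_one]
  obtain ⟨τA, hτu, hτA⟩ := patching V (by
    intro P hP _
    apply local_row h (Localization.AtPrime P)
      (fun i => (V i).map (algebraMap (AA k) (Localization.AtPrime P)))
      (fun i => (W i).map (algebraMap (AA k) (Localization.AtPrime P)))
    have := congrArg (Polynomial.map (algebraMap (AA k) (Localization.AtPrime P))) hVW
    rw [Polynomial.map_sum, Polynomial.map_one] at this
    simpa only [Polynomial.map_mul] using this)
  have hV0 : ∀ i, (V i).eval 0 = if i = 2 then 1 else 0 := by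
    intro i
    apply Subtype.val_injective
    have h1 : ((V i).eval 0 : AA k) = (V i).coeff 0 := (coeff_zero_eq_eval_zero _).symm
    rw [h1]
    have h2 : ((V i).coeff 0 : k[X][X]) = (th k (v i)).coeff 0 := by
      rw [← hV, coeff_map]
      rfl
    rw [h2, th_zero (c := if i = 2 then 1 else 0) (by split_ifs <;> simp) (hv i)]
    split_ifs <;> rfl
  have hV1 : ∀ i, (((V i).eval 1 : AA k) : k[X][X]) = v i := by
    intro i
    have h1 : (((V i).eval 1 : AA k) : k[X][X]) = ((V i).map (AA k).subtype).eval 1 := by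
      rw [eval_map, eval₂_at_one]
      rfl
    rw [h1, hV, th_one]
  refine ⟨τA.map (AA k).subtype, (τA⁻¹).map (AA k).subtype, ?_, ?_, ?_, ?_⟩
  · rw [← Matrix.map_mul, mul_nonsing_inv _ hτu]
    ext i j : 2
    by_cases hij : i = j
    · subst hij
      simp
    · simp [hij]
  · intro i j
    exact (τA i j).2
  · intro i j
    exact ((τA⁻¹) i j).2
  · intro j
    have h1 := hτA j
    rw [Fin.sum_univ_three, hV0, hV0, hV0] at h1
    simp only [Fin.isValue, Fin.reduceEq, if_false, if_true, zero_mul, zero_add, one_mul] at h1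
    rw [map_apply, ← hV1 j, ← h1]
    rfl

end J1

end Pool.Agent.Helper47.HR
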