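import Pool.Agent.Helper47.HR.E
import Pool.Agent.Helper47.HR.J1

set_option autoImplicit false

namespace Pool.Agent.Helper47.HR

open Polynomial Matrix

section J2

variable {k : Type} [Field k]

theorem one_row {R : Type*} [CommRing R] (i : Fin 3) :
    (1 : Matrix (Fin 3) (Fin 3) R) 2 i = if i = 2 then 1 else 0 := by
  rw [one_apply]
  simp only [eq_comm]

theorem one_col {R : Type*} [CommRing R] (i : Fin 3) :
    (1 : Matrix (Fin 3) (Fin 3) R) i 2 = if i = 2 then 1 else 0 := by
  rw [one_apply]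

theorem emb_row {R : Type*} [CommRing R] (M : Matrix (Fin 2) (Fin 2) R) (i : Fin 3) :
    emb3 M 2 i = if i = 2 then 1 else 0 := by
  fin_cases i <;> simp [emb3]

theorem emb_col {R : Type*} [CommRing R] (M : Matrix (Fin 2) (Fin 2) R) (i : Fin 3) :
    emb3 M i 2 = if i = 2 then 1 else 0 := by
  fin_cases i <;> simp [emb3]

theorem one_emb {R : Type*} [CommRing R] (i j : Fin 3) :
    (1 : Matrix (Fin 3) (Fin 3) R) i j = emb3 1 i j := by
  fin_cases i <;> fin_cases j <;> simp [emb3]

theorem lin1 {R : Type*} [CommRing R] (m0 m1 : R) {p q r s c d u v : R}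
    (h1 : p * c + q * d = u) (h2 : r * c + s * d = v) :
    (m0 * p + m1 * r) * c + (m0 * q + m1 * s) * d = m0 * u + m1 * v := by
  linear_combination m0 * h1 + m1 * h2

/-- divisibility by `XY(Y-X)` -/
theorem dvd_f {P : k[X][X]} (h1 : P.eval 0 = 0)
    (h2 : mapRingHom (evalRingHom (0 : k)) P = 0) (h3 : P.eval X = 0) :
    X * C X * (X - C X) ∣ P := by
  obtain ⟨P1, rfl⟩ : X ∣ P := by
    rw [X_dvd_iff, coeff_zero_eq_eval_zero, h1]
  have h4 : P1.eval X = 0 := by
    rw [eval_mul, eval_X] at h3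
    exact (mul_eq_zero.mp h3).resolve_left X_ne_zero
  obtain ⟨P2, rfl⟩ : (X - C X) ∣ P1 := dvd_iff_isRoot.mpr h4
  have h5 : mapRingHom (evalRingHom (0 : k)) P2 = 0 := by
    rw [map_mul, map_mul] at h2
    have e1 : mapRingHom (evalRingHom (0 : k)) X = X := by simp
    have e2 : mapRingHom (evalRingHom (0 : k)) (X - C X) = X := by simp
    rw [e1, e2] at h2
    exact (mul_eq_zero.mp ((mul_eq_zero.mp h2).resolve_left X_ne_zero)).resolve_left X_ne_zero
  obtain ⟨P3, rfl⟩ : C X ∣ P2 := by
    rw [C_dvd_iff_dvd_coeff]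
    intro i
    rw [X_dvd_iff, coeff_zero_eq_eval_zero]
    have := congrArg (fun f : k[X] => f.coeff i) h5
    simpa using this
  exact ⟨P3, by ring⟩

theorem lift_of_HRC (h : HRC) [CharP k 2] (x y : k) :
    ∃ a : Matrix (Fin 2) (Fin 2) (Polynomial (Polynomial k)), a.det = 1 ∧
      a.map (evalRingHom 0) = 1 ∧ a.map (mapRingHom (evalRingHom 0)) = 1 ∧
      a.map (evalRingHom X) = alpha x y := by
  obtain ⟨β, hβdet, hβY, hβX, hβD⟩ := exists_beta x y
  set β1 := β.adjugate with hβ1
  have hββ1 : β * β1 = 1 := by rw [hβ1, mul_adjugate, hβdet, one_smul]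
  have hβ1β : β1 * β = 1 := by rw [hβ1, adjugate_mul, hβdet, one_smul]
  -- last column and last row of the specialisations
  have hcol : ∀ (φ : k[X][X] →+* k[X]), (∀ j, φ (β j 2) = if j = 2 then 1 else 0) →
      ∀ i, φ (β1 i 2) = if i = 2 then 1 else 0 := by
    intro φ hφ i
    have e1 := congrArg φ (congrFun (congrFun hβ1β i) 2)
    rw [mul_apply, Fin.sum_univ_three, map_add, map_add, map_mul, map_mul, map_mul, hφ, hφ,
      hφ] at e1
    simp only [Fin.isValue, Fin.reduceEq, if_false, if_true, mul_zero, zero_add, mul_one] at e1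
    rw [one_col] at e1
    refine e1.trans ?_
    split_ifs <;> simp
  have hY : ∀ i j, evalRingHom 0 (β i j) = (1 : Matrix (Fin 3) (Fin 3) k[X]) i j :=
    fun i j => congrFun (congrFun hβY i) j
  have hX : ∀ i j, mapRingHom (evalRingHom 0) (β i j) = (1 : Matrix (Fin 3) (Fin 3) k[X]) i j :=
    fun i j => congrFun (congrFun hβX i) j
  have hD : ∀ i j, evalRingHom X (β i j) = emb3 (alpha x y) i j :=
    fun i j => congrFun (congrFun hβD i) j
  have hdvd : ∀ (P : k[X][X]) (i : Fin 3), evalRingHom 0 P = (if i = 2 then 1 else 0) →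
      mapRingHom (evalRingHom (0 : k)) P = (if i = 2 then 1 else 0) →
      evalRingHom X P = (if i = 2 then 1 else 0) →
      X * C X * (X - C X) ∣ P - (if i = 2 then 1 else 0) := by
    intro P i e1 e2 e3
    apply dvd_f
    · rw [coe_evalRingHom] at e1
      rw [eval_sub, e1]
      split_ifs <;> simp
    · rw [map_sub, e2]
      split_ifs <;> simp
    · rw [coe_evalRingHom] at e3
      rw [eval_sub, e3]
      split_ifs <;> simp
  obtain ⟨τ, τ1, hττ1, hτc, hτ1c, hτ2⟩ := J1 h (fun j => β 2 j) (fun i => β1 i 2)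
    (by
      have := congrFun (congrFun hββ1 2) 2
      rw [mul_apply] at this
      rw [this, one_apply_eq])
    (by
      intro i
      apply hdvd
      · rw [hY, one_row]
      · rw [hX, one_row]
      · rw [hD, emb_row])
    (by
      intro i
      apply hdvd
      · apply hcol
        intro j
        rw [hY, one_col]
      · apply hcol
        intro j
        rw [hX, one_col]
      · apply hcol
        intro j
        rw [hD, emb_col])
  choose c hc using hτc
  choose c1 hc1 using hτ1c
  have hτ1τ : τ1 * τ = 1 := mul_eq_one_comm.mp hττ1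
  set ρ := β * τ1 with hρ
  have hρ2 : ∀ j, ρ 2 j = (1 : Matrix (Fin 3) (Fin 3) k[X][X]) 2 j := by
    intro j
    rw [← hττ1, hρ, mul_apply, mul_apply]
    exact Finset.sum_congr rfl fun l _ => by rw [hτ2]
  -- specialisations
  have hspec : ∀ (φ : k[X][X] →+* k[X]), φ (X * C X * (X - C X)) = 0 →
      (∀ c : k, φ (C (C c)) = C c) → (∀ j, φ (β 2 j) = if j = 2 then 1 else 0) →
      ∀ (M : Matrix (Fin 2) (Fin 2) k[X]), (∀ i j, φ (β i j) = emb3 M i j) →
      ((!![ρ 0 0, ρ 0 1; ρ 1 0, ρ 1 1] : Matrix (Fin 2) (Fin 2) k[X][X]) *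
        !![C (C (c 0 0)), C (C (c 0 1)); C (C (c 1 0)), C (C (c 1 1))]).map φ = M := by
    intro φ hφf hφc hφ2 M hM
    have t1 : ∀ i j, φ (τ i j) = C (c i j) := by
      intro i j
      obtain ⟨q, hq⟩ := hc i j
      have e1 := congrArg φ hq
      rw [map_sub, map_mul, hφf, zero_mul, hφc, sub_eq_zero] at e1
      exact e1
    have t2 : ∀ i j, φ (τ1 i j) = C (c1 i j) := by
      intro i j
      obtain ⟨q, hq⟩ := hc1 i j
      have e1 := congrArg φ hq
      rw [map_sub, map_mul, hφf, zero_mul, hφc, sub_eq_zero] at e1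
      exact e1
    have t3 : ∀ j, (C (c 2 j) : k[X]) = if j = 2 then 1 else 0 := by
      intro j
      rw [← t1, hτ2, hφ2]
    have t4 : ∀ i j, ∑ l, (C (c1 i l) : k[X]) * C (c l j)
        = (1 : Matrix (Fin 3) (Fin 3) k[X]) i j := by
      intro i j
      have e1 := congrArg φ (congrFun (congrFun hτ1τ i) j)
      rw [mul_apply, map_sum] at e1
      simp only [map_mul, t1, t2] at e1
      rw [e1]
      by_cases hij : i = j
      · subst hij; simp
      · simp [hij]
    have t30 : (C (c 2 0) : k[X]) = 0 := by rw [t3]; simp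
    have t31 : (C (c 2 1) : k[X]) = 0 := by rw [t3]; simp
    have e00 : (C (c1 0 0) : k[X]) * C (c 0 0) + C (c1 0 1) * C (c 1 0) = 1 := by
      have := t4 0 0
      rw [Fin.sum_univ_three, t30, mul_zero, add_zero] at this
      rw [this]; simp
    have e01 : (C (c1 0 0) : k[X]) * C (c 0 1) + C (c1 0 1) * C (c 1 1) = 0 := by
      have := t4 0 1
      rw [Fin.sum_univ_three, t31, mul_zero, add_zero] at this
      rw [this]; simp
    have e10 : (C (c1 1 0) : k[X]) * C (c 0 0) + C (c1 1 1) * C (c 1 0) = 0 := by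
      have := t4 1 0
      rw [Fin.sum_univ_three, t30, mul_zero, add_zero] at this
      rw [this]; simp
    have e11 : (C (c1 1 0) : k[X]) * C (c 0 1) + C (c1 1 1) * C (c 1 1) = 1 := by
      have := t4 1 1
      rw [Fin.sum_univ_three, t31, mul_zero, add_zero] at this
      rw [this]; simp
    have r : ∀ i j, φ (ρ i j) = ∑ l, emb3 M i l * C (c1 l j) := by
      intro i j
      rw [hρ, mul_apply, map_sum]
      exact Finset.sum_congr rfl fun l _ => by rw [map_mul, hM, t2]
    have r' : ∀ (i : Fin 2) j, φ (ρ i.castSucc j) = M i 0 * C (c1 0 j) + M i 1 * C (c1 1 j) := by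
      intro i j
      rw [r, Fin.sum_univ_three]
      fin_cases i <;> simp [emb3]
    have r0 := r' 0
    have r1 := r' 1
    simp only [Fin.castSucc_zero, Fin.castSucc_one] at r0 r1
    refine Matrix.ext fun i j => ?_
    rw [map_apply, mul_apply, Fin.sum_univ_two, map_add, map_mul, map_mul]
    fin_cases i <;> fin_cases j
    · simp only [Fin.zero_eta, Fin.isValue, of_apply, cons_val', cons_val_zero, cons_val_fin_one,
        cons_val_one, r0, r1, hφc, Fin.mk_one]
      exact (lin1 _ _ e00 e10).trans (by simp)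
    · simp only [Fin.zero_eta, Fin.isValue, of_apply, cons_val', cons_val_zero, cons_val_fin_one,
        cons_val_one, r0, r1, hφc, Fin.mk_one]
      exact (lin1 _ _ e01 e11).trans (by simp)
    · simp only [Fin.zero_eta, Fin.isValue, of_apply, cons_val', cons_val_zero, cons_val_fin_one,
        cons_val_one, r0, r1, hφc, Fin.mk_one]
      exact (lin1 _ _ e00 e10).trans (by simp)
    · simp only [Fin.zero_eta, Fin.isValue, of_apply, cons_val', cons_val_zero, cons_val_fin_one,
        cons_val_one, r0, r1, hφc, Fin.mk_one]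
      exact (lin1 _ _ e01 e11).trans (by simp)
  set a : Matrix (Fin 2) (Fin 2) k[X][X] := (!![ρ 0 0, ρ 0 1; ρ 1 0, ρ 1 1] :
    Matrix (Fin 2) (Fin 2) k[X][X]) *
        !![C (C (c 0 0)), C (C (c 0 1)); C (C (c 1 0)), C (C (c 1 1))] with ha
  have sY : a.map (evalRingHom 0) = 1 := by
    apply hspec
    · simp
    · intro c; simp
    · intro j
      rw [hY, one_row]
    · intro i j
      rw [hY, one_emb]
  have sX : a.map (mapRingHom (evalRingHom 0)) = 1 := by
    apply hspec
    · simp
    · intro c; simp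
    · intro j
      rw [hX, one_row]
    · intro i j
      rw [hX, one_emb]
  have sD : a.map (evalRingHom X) = alpha x y := by
    apply hspec
    · simp
    · intro c; simp
    · intro j
      rw [hD, emb_row]
    · intro i j
      rw [hD]
  refine ⟨a, ?_, sY, sX, sD⟩
  -- determinant
  have hu : IsUnit a.det := by
    have h1 : IsUnit ρ.det := by
      rw [hρ, det_mul, hβdet, one_mul]
      exact IsUnit.of_mul_eq_one τ.det (by rw [← det_mul, hτ1τ, det_one])
    have hr0 : ρ 2 0 = 0 := by rw [hρ2]; simp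
    have hr1 : ρ 2 1 = 0 := by rw [hρ2]; simp
    have hr2 : ρ 2 2 = 1 := by rw [hρ2]; simp
    have h2 : ρ.det = ρ 0 0 * ρ 1 1 - ρ 0 1 * ρ 1 0 := by
      rw [det_fin_three, hr0, hr1, hr2]
      ring
    have h3 : (a.map (evalRingHom 0)).det = 1 := by rw [sY, det_one]
    have h4 : a.det = ρ.det * C (C (c 0 0 * c 1 1 - c 0 1 * c 1 0)) := by
      rw [ha, det_mul, det_fin_two_of, det_fin_two_of, h2]
      simp only [C_mul, C_sub]
    have h5 : c 0 0 * c 1 1 - c 0 1 * c 1 0 ≠ 0 := by
      intro h6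
      rw [h6, C_0, C_0, mul_zero] at h4
      rw [← RingHom.mapMatrix_apply, ← RingHom.map_det, h4, map_zero] at h3
      exact zero_ne_one h3
    rw [h4]
    exact h1.mul ((isUnit_iff_ne_zero.mpr h5).map (C.comp C : k →+* k[X][X]))
  obtain ⟨r, hr, hra⟩ := Polynomial.isUnit_iff.mp hu
  have h1 : r = 1 := by
    have h3 : (a.map (evalRingHom 0)).det = 1 := by rw [sY, det_one]
    rw [← RingHom.mapMatrix_apply, ← RingHom.map_det, ← hra] at h3
    simpa using h3
  rw [← hra, h1, C_1]

end J2

end Pool.Agent.Helper47.HR
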